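import Pool.Agent.H537.FT.Form
import Pool.Agent.H537.FT.Par2
import Pool.Agent.H537.FG.Choice

/-! A polynomial, the numbers of its zeros modulo primes, and the choice of the residue class. -/

set_option autoImplicit false
set_option maxHeartbeats 4000000

open Finset Polynomial

namespace Pool.Agent.H537.GP

open Pool.Agent.H537.FG Pool.Agent.N914.MR Pool.Agent.H537.FT

/-- the number of the zeros modulo `p` -/
def omG (G : ℤ[X]) (p : ℕ) : ℕ := ((range p).filter (fun n : ℕ => (p : ℤ) ∣ G.eval (n : ℤ))).card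

/-- the number of the residues `r` modulo `q` with `G(r)` coprime to `q` -/
def rhoG (G : ℤ[X]) (q : ℕ) : ℕ := ((range q).filter (fun r : ℕ => Int.gcd (G.eval (r : ℤ)) q = 1)).card

/-- the weights -/
noncomputable def hG (G : ℤ[X]) (p : ℕ) : ℝ := (omG G p : ℝ) / ((p : ℝ) - omG G p)

theorem dvd_congr (G : ℤ[X]) {p a b : ℕ} (h : a ≡ b [MOD p]) :
    (p : ℤ) ∣ G.eval (a : ℤ) ↔ (p : ℤ) ∣ G.eval (b : ℤ) :=
  ⟨fun h1 => eval_congr G h.symm h1, fun h1 => eval_congr G h h1⟩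

theorem omG_le {G : ℤ[X]} {p : ℕ} (hp : p.Prime) (hlt : omG G p < p) : omG G p ≤ G.natDegree := by
  classical
  have : Fact p.Prime := ⟨hp⟩
  have hev0 : ∀ n : ℕ, eval ((n : ℕ) : ZMod p) (G.map (Int.castRingHom (ZMod p))) =
      ((G.eval (n : ℤ) : ℤ) : ZMod p) := by
    intro n
    have := eval_intCast_map (Int.castRingHom (ZMod p)) G (n : ℤ)
    simpa using this
  obtain ⟨g, hg⟩ : ∃ g : (ZMod p)[X], g = G.map (Int.castRingHom (ZMod p)) := ⟨_, rfl⟩
  have hev : ∀ n : ℕ, eval ((n : ℕ) : ZMod p) g = ((G.eval (n : ℤ) : ℤ) : ZMod p) := by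
    intro n
    rw [hg]
    exact hev0 n
  have hg0 : g ≠ 0 := by
    intro h0
    have h2 : omG G p = p := by
      unfold omG
      rw [filter_true_of_mem, card_range]
      intro n _
      rw [← ZMod.intCast_zmod_eq_zero_iff_dvd, ← hev n, h0, eval_zero]
    omega
  calc omG G p ≤ g.roots.toFinset.card := by
        unfold omG
        apply card_le_card_of_injOn (fun n : ℕ => (n : ZMod p))
        · intro n hn
          rw [mem_coe, mem_filter] at hn
          rw [mem_coe, Multiset.mem_toFinset, mem_roots hg0, IsRoot.def, hev]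
          exact (ZMod.intCast_zmod_eq_zero_iff_dvd _ _).mpr hn.2
        · intro n hn m hm hnm
          rw [mem_coe, mem_filter, mem_range] at hn hm
          have h5 : (n : ZMod p) = (m : ZMod p) := hnm
          rw [ZMod.natCast_eq_natCast_iff] at h5
          exact Nat.ModEq.eq_of_lt_of_lt h5 hn.1 hm.1
    _ ≤ Multiset.card g.roots := Multiset.toFinset_card_le _
    _ ≤ g.natDegree := card_roots' g
    _ ≤ G.natDegree := by
        rw [hg]
        exact natDegree_map_le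

theorem hG_nonneg {G : ℤ[X]} {p : ℕ} (h : omG G p < p) : 0 ≤ hG G p := by
  unfold hG
  have : (omG G p : ℝ) < p := by exact_mod_cast h
  exact div_nonneg (Nat.cast_nonneg _) (by linarith)

theorem hG_le {G : ℤ[X]} {p : ℕ} {D : ℕ} (h : omG G p < p) (hom : omG G p ≤ D) :
    hG G p ≤ 2 * ((D : ℝ) + 1) ^ 2 / p := by
  unfold hG
  have h1 : (omG G p : ℝ) + 1 ≤ p := by exact_mod_cast h
  have h0 : (0 : ℝ) ≤ omG G p := Nat.cast_nonneg _
  have hp0 : (0 : ℝ) < p := by linarith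
  set D' : ℝ := (D : ℝ) + 1 with hD
  have hD1 : (1 : ℝ) ≤ D' := by
    have : (0 : ℝ) ≤ D := Nat.cast_nonneg _
    linarith
  have h2 : (omG G p : ℝ) ≤ D' := by
    have : (omG G p : ℝ) ≤ D := by exact_mod_cast hom
    linarith
  rw [div_le_div_iff₀ (by linarith) hp0]
  by_cases hc : (p : ℝ) ≤ 2 * D'
  · calc (omG G p : ℝ) * p ≤ D' * (2 * D') := mul_le_mul h2 hc hp0.le (by linarith)
      _ = 2 * (D' : ℝ) ^ 2 * 1 := by ring
      _ ≤ _ := mul_le_mul_of_nonneg_left (by linarith) (by positivity)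
  · push Not at hc
    have h3 : (p : ℝ) / 2 ≤ p - omG G p := by linarith
    calc (omG G p : ℝ) * p ≤ D' * p := mul_le_mul_of_nonneg_right h2 hp0.le
      _ ≤ D' ^ 2 * p := by
          apply mul_le_mul_of_nonneg_right _ hp0.le
          nlinarith
      _ = 2 * (D' : ℝ) ^ 2 * (p / 2) := by ring
      _ ≤ _ := mul_le_mul_of_nonneg_left h3 (by positivity)

theorem rhoG_eq (G : ℤ[X]) {q : ℕ} (hq : 1 ≤ q) :
    (rhoG G q : ℝ) = q * ∏ p ∈ q.primeFactors, (1 - (omG G p : ℝ) / p) := by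
  have hF : Pool.Agent.H735K.Per (fun x : ℤ => G.eval x) := by
    intro p x y hxy
    have h1 : (x - y) ∣ G.eval x - G.eval y := sub_dvd_eval_sub _ _ _
    have h2 : (p : ℤ) ∣ x - y := (Int.ModEq.dvd hxy.symm)
    exact ((Int.modEq_iff_dvd).mpr (h2.trans h1)).symm
  exact Pool.Agent.H735K.phF_eq hF q hq

theorem gg_hG {G : ℤ[X]} (hadm : ∀ p : ℕ, p.Prime → omG G p < p) {q : ℕ} (hq : 1 ≤ q) :
    gg (hG G) q / q = 1 / (rhoG G q : ℝ) := by
  have hq0 : (q : ℝ) ≠ 0 := by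
    have : q ≠ 0 := by omega
    exact_mod_cast this
  rw [rhoG_eq G hq]
  unfold gg hG
  rw [one_div, mul_inv, ← prod_inv_distrib, div_eq_mul_inv, mul_comm]
  congr 1
  refine prod_congr rfl fun p hp => ?_
  have hlt := hadm p (Nat.prime_of_mem_primeFactors hp)
  have h1 : (omG G p : ℝ) < p := by exact_mod_cast hlt
  have h0 : (0 : ℝ) ≤ omG G p := Nat.cast_nonneg _
  have hp0 : (p : ℝ) ≠ 0 := by linarith
  have h2 : (p : ℝ) - omG G p ≠ 0 := by linarith
  rw [show (1 : ℝ) - (omG G p : ℝ) / p = (p - omG G p) / p by field_simp, inv_div]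
  field_simp
  ring

/-- the zeros in a progression -/
theorem zero_count {G : ℤ[X]} {p : ℕ} (hp : p.Prime) {P : ℕ} (hP : ¬ p ∣ P) (c S : ℕ) :
    ((Icc 1 S).filter (fun j : ℕ => (p : ℤ) ∣ G.eval ((c + P * j : ℕ) : ℤ))).card ≤
      omG G p * (S / p + 1) := by
  classical
  set R := (range p).filter (fun n : ℕ => (p : ℤ) ∣ G.eval (n : ℤ)) with hR
  have hsub : (Icc 1 S).filter (fun j : ℕ => (p : ℤ) ∣ G.eval ((c + P * j : ℕ) : ℤ)) ⊆
      R.biUnion fun r => (Icc 1 S).filter (fun j => p ∣ (c + (p - r)) + P * j) := by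
    intro j hj
    rw [mem_filter] at hj
    rw [mem_biUnion]
    refine ⟨(c + P * j) % p, ?_, ?_⟩
    · rw [hR, mem_filter, mem_range]
      exact ⟨Nat.mod_lt _ hp.pos, (dvd_congr G (Nat.mod_modEq _ _)).mpr hj.2⟩
    · rw [mem_filter]
      refine ⟨hj.1, ?_⟩
      have h1 : (c + P * j) % p < p := Nat.mod_lt _ hp.pos
      have h2 := Nat.div_add_mod (c + P * j) p
      set t := (c + P * j) % p with ht
      set s := (c + P * j) / p with hs
      have h3 : c + (p - t) + P * j = p * (s + 1) := by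
        have : p * (s + 1) = p * s + p := by ring
        omega
      rw [h3]
      exact dvd_mul_right _ _
  calc _ ≤ _ := card_le_card hsub
    _ ≤ ∑ r ∈ R, ((Icc 1 S).filter (fun j => p ∣ (c + (p - r)) + P * j)).card := card_biUnion_le
    _ ≤ ∑ _r ∈ R, (S / p + 1) := sum_le_sum fun r _ => lin_count hp hP _ S
    _ = _ := by
        rw [sum_const, smul_eq_mul]
        rfl

/-- the choice of the residue class -/
theorem choose_root (G : ℤ[X]) (D : ℕ) (hD : ∀ p : ℕ, p.Prime → omG G p ≤ D)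
    (hadm : ∀ p : ℕ, p.Prime → omG G p < p) (w z S : ℕ) (hw2 : 2 ≤ w)
    (hwz : w ≤ z) (hS : 1 ≤ S) :
    ∃ a : ℕ, (a : ℝ) ≤ ((S : ℝ) + 1) * 4 ^ z ∧ 1 ≤ a ∧
      (∀ p : ℕ, p.Prime → p ≤ w → ¬ (p : ℤ) ∣ G.eval (a : ℤ)) ∧
      (∀ p ∈ Ioc w z, p.Prime → (∃ r : ℕ, (p : ℤ) ∣ G.eval (r : ℤ)) → (p : ℤ) ∣ G.eval (a : ℤ)) ∧
      (∀ p ∈ Ioc w z, p.Prime → p < a) ∧
      (((Ioc z S).filter (fun p : ℕ => p.Prime ∧ (p : ℤ) ∣ G.eval (a : ℤ))).card : ℝ) ≤
        ((D : ℝ) + 1) * (2 + Real.log S) := by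
  classical
  have h1 : ∀ p : ℕ, ∃ r : ℕ, p.Prime → (p ≤ w → ¬ (p : ℤ) ∣ G.eval (r : ℤ)) ∧
      (w < p → (∃ r : ℕ, (p : ℤ) ∣ G.eval (r : ℤ)) → (p : ℤ) ∣ G.eval (r : ℤ)) := by
    intro p
    by_cases hp : p.Prime
    · by_cases hw : p ≤ w
      · have h2 := hadm p hp
        unfold omG at h2
        have h3 : ∃ n ∈ range p, ¬ (p : ℤ) ∣ G.eval (n : ℤ) := by
          by_contra hc
          push Not at hc
          rw [filter_true_of_mem hc, card_range] at h2
          exact lt_irrefl _ h2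
        obtain ⟨n, _, hn⟩ := h3
        exact ⟨n, fun _ => ⟨fun _ => hn, fun h => absurd hw (by omega)⟩⟩
      · by_cases hr : ∃ r : ℕ, (p : ℤ) ∣ G.eval (r : ℤ)
        · obtain ⟨r, hr'⟩ := hr
          exact ⟨r, fun _ => ⟨fun h => absurd h hw, fun _ _ => hr'⟩⟩
        · exact ⟨0, fun _ => ⟨fun h => absurd h hw, fun _ h => absurd h hr⟩⟩
    · exact ⟨0, fun h => absurd h hp⟩
  choose r hr using h1
  set T : Finset ℕ := (Icc 1 z).filter Nat.Prime with hT
  have hTp : ∀ p ∈ T, p.Prime := fun p hp => (mem_filter.mp hp).2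
  have hpp : Set.Pairwise (T : Set ℕ) (Function.onFun Nat.Coprime fun p => p) := by
    intro p hp q hq hpq
    exact (Nat.coprime_primes (hTp p (mem_coe.mp hp)) (hTp q (mem_coe.mp hq))).mpr hpq
  have hs : ∀ i ∈ T, (fun p : ℕ => p) i ≠ 0 := fun p hp => (hTp p hp).ne_zero
  obtain ⟨c', hc'⟩ := Nat.chineseRemainderOfFinset r (fun p => p) T hs hpp
  set P := ∏ p ∈ T, p with hP
  have hP4 : P ≤ 4 ^ z := by
    have : P = primorial z := by
      unfold primorial
      rw [hP, hT]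
      apply prod_congr _ fun _ _ => rfl
      ext p
      rw [mem_filter, mem_filter, mem_Icc, mem_range]
      constructor
      · rintro ⟨h1, h2⟩
        exact ⟨by omega, h2⟩
      · rintro ⟨h1, h2⟩
        exact ⟨⟨h2.one_le, by omega⟩, h2⟩
    rw [this]
    exact primorial_le_four_pow z
  have hPpos : 0 < P := prod_pos fun p hp => (hTp p hp).pos
  set c := c' % P with hc
  have hcP : c < P := Nat.mod_lt _ hPpos
  have hcong : ∀ j p : ℕ, p ∈ T → c + P * j ≡ r p [MOD p] := by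
    intro j p hp
    have e1 : c + P * j ≡ c' [MOD P] := by
      have e2 : c + P * j ≡ c + 0 [MOD P] := by
        apply Nat.ModEq.add_left
        exact Nat.modEq_zero_iff_dvd.mpr (dvd_mul_right _ _)
      exact e2.trans (Nat.mod_modEq c' P)
    exact (e1.of_dvd (dvd_prod_of_mem _ hp)).trans (hc' p hp)
  set Gs : Finset ℕ := (Ioc z S).filter Nat.Prime with hGs
  have hGP : ∀ p ∈ Gs, ¬ p ∣ P := by
    intro p hp hd
    rw [hGs, mem_filter, mem_Ioc] at hp
    rw [hP, (Nat.prime_iff.mp hp.2).dvd_finsetProd_iff] at hd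
    obtain ⟨q, hq, hpq⟩ := hd
    have h2 := (Nat.prime_dvd_prime_iff_eq hp.2 (hTp q hq)).mp hpq
    rw [hT, mem_filter, mem_Icc, ← h2] at hq
    omega
  have hS0 : (0 : ℝ) < S := by exact_mod_cast hS
  have hcount : ∀ p ∈ Gs, (((Icc 1 S).filter
      (fun j : ℕ => (p : ℤ) ∣ G.eval ((c + P * j : ℕ) : ℤ))).card : ℝ) ≤ ((D : ℝ) + 1) * (S / p + 1) := by
    intro p hp
    have hpp := (mem_filter.mp hp).2
    have hp0 : (0 : ℝ) < p := by exact_mod_cast hpp.pos
    have h2 : ((Icc 1 S).filter (fun j : ℕ => (p : ℤ) ∣ G.eval ((c + P * j : ℕ) : ℤ))).card ≤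
        (D + 1) * (S / p + 1) := by
      refine (zero_count hpp (hGP p hp) c S).trans ?_
      exact Nat.mul_le_mul_right _ ((hD p hpp).trans (Nat.le_succ _))
    have h3 : ((S / p : ℕ) : ℝ) ≤ S / p := Nat.cast_div_le
    calc (((Icc 1 S).filter (fun j : ℕ => (p : ℤ) ∣ G.eval ((c + P * j : ℕ) : ℤ))).card : ℝ) ≤
        (((D + 1) * (S / p + 1) : ℕ) : ℝ) := by exact_mod_cast h2
      _ = ((D : ℝ) + 1) * (((S / p : ℕ) : ℝ) + 1) := by push_cast; ring
      _ ≤ _ := mul_le_mul_of_nonneg_left (by linarith) (by positivity)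
  have hG1 : ∑ p ∈ Gs, (1 : ℝ) / p ≤ 1 + Real.log S := by
    have hsub : Gs ⊆ Ioc 0 S := by
      intro p hp
      rw [hGs, mem_filter, mem_Ioc] at hp
      rw [mem_Ioc]
      omega
    refine (sum_le_sum_of_subset_of_nonneg hsub fun _ _ _ => by positivity).trans ?_
    have h3 := harm_le le_rfl hS
    have h4 : Ioc 0 S = insert 1 (Ioc 1 S) := by
      ext x
      simp only [mem_Ioc, mem_insert]
      omega
    rw [h4, sum_insert (by simp)]
    simp only [Nat.cast_one, Real.log_one, sub_zero, div_one] at h3 ⊢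
    linarith
  have hGc : (Gs.card : ℝ) ≤ S := by
    have hsub : Gs ⊆ Ioc 0 S := by
      intro p hp
      rw [hGs, mem_filter, mem_Ioc] at hp
      rw [mem_Ioc]
      omega
    have := card_le_card hsub
    rw [Nat.card_Ioc, Nat.sub_zero] at this
    exact_mod_cast this
  have htot : ∑ j ∈ Icc 1 S, ((Gs.filter (fun p : ℕ => (p : ℤ) ∣ G.eval ((c + P * j : ℕ) : ℤ))).card : ℝ) ≤
      ∑ j ∈ Icc 1 S, ((D : ℝ) + 1) * (2 + Real.log S) := by
    have e1 : ∑ j ∈ Icc 1 S, ((Gs.filter (fun p : ℕ => (p : ℤ) ∣ G.eval ((c + P * j : ℕ) : ℤ))).card : ℝ) =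
        ∑ p ∈ Gs, (((Icc 1 S).filter (fun j : ℕ => (p : ℤ) ∣ G.eval ((c + P * j : ℕ) : ℤ))).card : ℝ) := by
      simp only [card_filter, Nat.cast_sum]
      rw [sum_comm]
    rw [e1]
    refine (sum_le_sum hcount).trans ?_
    rw [← mul_sum, sum_add_distrib, sum_const, nsmul_eq_mul, mul_one, sum_const, Nat.card_Icc, nsmul_eq_mul]
    have e2 : ∑ p ∈ Gs, (S : ℝ) / p = S * ∑ p ∈ Gs, (1 : ℝ) / p := by
      rw [mul_sum]
      refine sum_congr rfl fun p _ => ?_
      ring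
    rw [e2]
    have e3 : (S : ℝ) * ∑ p ∈ Gs, (1 : ℝ) / p ≤ S * (1 + Real.log S) := mul_le_mul_of_nonneg_left hG1 hS0.le
    have e4 : ((S + 1 - 1 : ℕ) : ℝ) = S := by
      rw [Nat.add_sub_cancel]
    rw [e4]
    calc ((D : ℝ) + 1) * (S * ∑ p ∈ Gs, (1 : ℝ) / p + Gs.card) ≤ ((D : ℝ) + 1) * (S * (1 + Real.log S) + S) :=
          mul_le_mul_of_nonneg_left (by linarith) (by positivity)
      _ = _ := by ring
  obtain ⟨j, hj, hjb⟩ := exists_le_of_sum_le (nonempty_Icc.mpr hS) htot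
  rw [mem_Icc] at hj
  have hPj : P ≤ P * j := Nat.le_mul_of_pos_right P hj.1
  refine ⟨c + P * j, ?_, ?_, ?_, ?_, ?_, ?_⟩
  · have h2 : c + P * j ≤ (S + 1) * 4 ^ z := by
      calc c + P * j ≤ P + P * S := add_le_add hcP.le (Nat.mul_le_mul_left _ hj.2)
        _ = (S + 1) * P := by ring
        _ ≤ _ := Nat.mul_le_mul_left _ hP4
    exact_mod_cast h2
  · omega
  · intro p hp hpw hd
    have hpT : p ∈ T := mem_filter.mpr ⟨mem_Icc.mpr ⟨hp.one_le, hpw.trans hwz⟩, hp⟩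
    exact (hr p hp).1 hpw ((dvd_congr G (hcong j p hpT)).mp hd)
  · intro p hp hpp' hroot
    rw [mem_Ioc] at hp
    have hpT : p ∈ T := mem_filter.mpr ⟨mem_Icc.mpr ⟨hpp'.one_le, hp.2⟩, hpp'⟩
    exact (dvd_congr G (hcong j p hpT)).mpr ((hr p hpp').2 hp.1 hroot)
  · intro p hp hpp'
    rw [mem_Ioc] at hp
    have hpT : p ∈ T := mem_filter.mpr ⟨mem_Icc.mpr ⟨hpp'.one_le, hp.2⟩, hpp'⟩
    have h2T : 2 ∈ T := mem_filter.mpr ⟨mem_Icc.mpr ⟨by norm_num, by omega⟩, Nat.prime_two⟩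
    have h2 : p * 2 ∣ P := by
      apply Nat.Coprime.mul_dvd_of_dvd_of_dvd _ (dvd_prod_of_mem _ hpT) (dvd_prod_of_mem _ h2T)
      exact (Nat.coprime_primes hpp' Nat.prime_two).mpr (by omega)
    have h3 := Nat.le_of_dvd hPpos h2
    have h4 := hpp'.pos
    omega
  · refine le_trans (le_of_eq ?_) hjb
    congr 2
    rw [hGs, filter_filter]

end Pool.Agent.H537.GP
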