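import Pool.Agent.H537.GP.Poly
import Pool.Agent.H537.FT.FinT

/-! The final assembly for arbitrary polynomials, one parity, uniformly in the polynomial. -/

set_option autoImplicit false
set_option maxHeartbeats 4000000

open Finset Polynomial Filter

namespace Pool.Agent.H537.GP

open Pool.Agent.H537.FG Pool.Agent.N914.MR Pool.Agent.H537.FT

open Classical in
theorem parityG (k : ℕ) (E : ℝ) (hE : 0 < E) (n0 : ℕ) (c0 : ℝ) (hc0 : 0 < c0) (B : ℝ) (hB : 0 < B)
    (ε : ℝ) (hε : 0 < ε) (K : ℕ) (hK2 : 2 ≤ K) (hBK : B < K) :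
    ∃ η₀ : ℝ, 0 < η₀ ∧ ∀ η : ℝ, 0 < η → η ≤ η₀ → ∀ᶠ N : ℕ in atTop,
      ∀ (G : ℤ[X]) (X : ℕ) (W : ℕ → ℝ) (I : ℕ → ℝ) (lam C : ℝ),
      G.natDegree ≤ k → (∀ a : ℕ, a ≤ N → ((G.eval (a : ℤ)).natAbs : ℝ) ≤ (N : ℝ) ^ E) →
      (∀ p : ℕ, p.Prime → omG G p < p) →
      c0 ≤ ∑ p ∈ (Ioc (wF B K (Real.log N)) (zF B K (Real.log N))).filter
        (fun p : ℕ => p.Prime ∧ ∃ r : ℕ, (p : ℤ) ∣ G.eval (r : ℤ)), (1 : ℝ) / p →
      (N : ℝ) / 2 ≤ X → X ≤ N → 0 < lam → 0 < C →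
      (∀ n, n0 ≤ n → W n ≠ 0 → ∀ p : ℕ, p.Prime → (p : ℤ) ∣ G.eval (n : ℤ) → n ≤ p) →
      (∀ y : ℕ, (N : ℝ) / Real.log N ^ (B + 1) ≤ y → y ≤ X → |I y - lam * y| ≤ η * (lam * y)) →
      (∀ q a y : ℕ, 1 ≤ q → (q : ℝ) ≤ Real.log N ^ (B + 1) → Int.gcd (G.eval (a : ℤ)) q = 1 →
        (N : ℝ) / Real.log N ^ (B + 1) ≤ y → y ≤ X →
        |cntW W y a q - C * (1 / (rhoG G q : ℝ)) * I y| ≤ η * (C * (1 / (rhoG G q : ℝ)) * I y)) →
      ∃ a : ℕ, 1 ≤ a ∧ (a : ℝ) ≤ (N : ℝ) ^ ε ∧ ¬ (2 : ℤ) ∣ G.eval (a : ℤ) ∧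
        1 ≤ ⌊(N : ℝ) / Real.log N ^ B⌋₊ ∧
        η * ∑ q ∈ (Ioc ⌊(N : ℝ) / Real.log N ^ B⌋₊ (2 * ⌊(N : ℝ) / Real.log N ^ B⌋₊)).filter
            (fun q : ℕ => Int.gcd (G.eval (a : ℤ)) q = 1), C * (1 / (rhoG G q : ℝ)) * I X ≤
          (-1) ^ K * (∑ q ∈ (Ioc ⌊(N : ℝ) / Real.log N ^ B⌋₊ (2 * ⌊(N : ℝ) / Real.log N ^ B⌋₊)).filter
            (fun q : ℕ => Int.gcd (G.eval (a : ℤ)) q = 1), cntW W X a q -
            ∑ q ∈ (Ioc ⌊(N : ℝ) / Real.log N ^ B⌋₊ (2 * ⌊(N : ℝ) / Real.log N ^ B⌋₊)).filter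
            (fun q : ℕ => Int.gcd (G.eval (a : ℤ)) q = 1), C * (1 / (rhoG G q : ℝ)) * I X) := by
  classical
  have hK0 : (0 : ℝ) < K := by
    have : 0 < K := by omega
    exact_mod_cast this
  have hK1 : (1 : ℝ) ≤ K := by
    have : 1 ≤ K := by omega
    exact_mod_cast this
  have hk0 : (0 : ℝ) ≤ k := Nat.cast_nonneg _
  obtain ⟨Cm, hCm, hmert⟩ := Pool.Agent.Helper923.HMertens.mertens_ratio
  set Ch : ℝ := 2 * ((k : ℝ) + 1) ^ 2 with hCh
  have hCh0 : 0 ≤ Ch := by positivity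
  obtain ⟨η₀, hη₀, τ, hτ, S0, hS0, hasm⟩ := asm2 Ch c0 hCh0 hc0 K
  set CA : ℝ := 2 * E with hCA
  have hCA0 : 0 < CA := by positivity
  have hCR := CR_pos Ch
  refine ⟨η₀, hη₀, fun η hη hηle => ?_⟩
  have hlogX : Tendsto (fun X : ℕ => Real.log (X : ℝ)) atTop atTop :=
    Real.tendsto_log_atTop.comp tendsto_natCast_atTop_atTop
  set SS : ℝ := 2 * ((K : ℝ) + 1) / c0 + 20 * (|Cm| + 3) + 2 / c0 + 2 + 8 * K * |Cm| + n0 with hSS
  have hL1 := hlogX.eventually (parL B hB K hK2 (τ / 6) 3 SS (by positivity) (by norm_num))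
  have hL2 := hlogX.eventually (parL2 B hB K hK2 k hk0)
  have hX1 := parX2 B hB K hK2 hBK (min ε 1) τ 3 CA ((1 + Ch) * CR Ch) η (lt_min hε one_pos) hτ
    (by norm_num) hCA0 (by positivity) hη S0
  filter_upwards [hL1, hL2, hX1, hlogX.eventually_ge_atTop 1, eventually_ge_atTop 3] with N h1 h1' h2 hL1' hN3
  intro G X W I lam C hdeg hsize hadm hroot hX hXN hlam hC hW hI hsmall
  set L := Real.log (N : ℝ) with hL
  set w := wF B K L with hwd
  set z := zF B K L with hz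
  set S := SF B L with hS
  set Q := ⌊(N : ℝ) / L ^ B⌋₊ with hQ
  obtain ⟨g1, g2, g3, g4, g5, g6, g7⟩ := h1
  obtain ⟨k1, k2, k3, k4, k5, k6, k7, k8, k9⟩ := h2
  have hN0 : (0 : ℝ) < N := by
    have : 0 < N := by omega
    exact_mod_cast this
  have hN1 : (1 : ℝ) ≤ N := by
    have : 1 ≤ N := by omega
    exact_mod_cast this
  have hp1 : 0 < 2 * ((K : ℝ) + 1) / c0 := by positivity
  have habs := abs_nonneg Cm
  have hp2 : 0 ≤ 20 * (|Cm| + 3) := by positivity
  have hp5 : 0 < 2 / c0 := by positivity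
  have hp6 : 0 ≤ 8 * K * |Cm| := by positivity
  have hp7 : (0 : ℝ) ≤ n0 := Nat.cast_nonneg _
  have hwn0 : n0 ≤ w := by
    have : (n0 : ℝ) ≤ w := by linarith
    exact_mod_cast this
  have hw2 : (2 : ℝ) ≤ w := by linarith
  have hw2' : 2 ≤ w := by exact_mod_cast hw2
  have hlw2 : 2 ≤ Real.log w := by linarith
  have hlw0 : 0 < Real.log w := by linarith
  have hlz : Real.log w ≤ Real.log z := by
    have : 0 ≤ 1 / (2 * (K : ℝ)) * Real.log w := by positivity
    linarith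
  have hlz0 : 0 < Real.log z := by linarith
  have hz0 : (0 : ℝ) < z := by
    by_contra hc
    have h0 : (z : ℝ) = 0 := le_antisymm (not_lt.mp hc) (Nat.cast_nonneg _)
    rw [h0, Real.log_zero] at hlz
    linarith
  have hwz : w ≤ z := by
    have : (w : ℝ) ≤ z := (Real.log_le_log_iff (by linarith) hz0).mp hlz
    exact_mod_cast this
  have hzS : z ≤ S := by
    rw [hz, hS]
    unfold zF SF
    apply Nat.floor_le_floor
    apply Real.rpow_le_rpow_of_exponent_le hL1'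
    have : B / K ≤ B := div_le_self hB.le hK1
    linarith
  have hnS := h1' (by omega) hlz
  have hom : ∀ p : ℕ, p.Prime → omG G p ≤ k := fun p hp => (omG_le hp (hadm p hp)).trans hdeg
  obtain ⟨a, ha1, ha2, ha3, ha4, ha6, ha5⟩ := choose_root G k hom hadm w z S hw2' hwz k5
  obtain ⟨m1, m2, m3, m4, m5, m6, m7, m8⟩ := k9 X a hX hXN ha1
  set F := (G.eval (a : ℤ)).natAbs with hF
  have hdF : ∀ p : ℕ, p ∣ F ↔ (p : ℤ) ∣ G.eval (a : ℤ) := fun p => Int.natCast_dvd.symm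
  have hFne : F ≠ 0 := by
    intro h0
    apply ha3 2 Nat.prime_two hw2'
    rw [← hdF 2, h0]
    exact dvd_zero _
  set A' : Finset ℕ := F.primeFactors with hA'
  set A : Finset ℕ := A'.filter (fun p => p ≤ S) with hA
  have hA'p : ∀ p ∈ A', p.Prime := fun p hp => Nat.prime_of_mem_primeFactors hp
  have hA'w : ∀ p ∈ A', w < p := by
    intro p hp
    by_contra hc
    push Not at hc
    exact ha3 p (hA'p p hp) hc ((hdF p).mp (Nat.dvd_of_mem_primeFactors hp))
  have hAw : ∀ p ∈ A, p.Prime ∧ w < p := fun p hp =>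
    ⟨hA'p p (mem_filter.mp hp).1, hA'w p (mem_filter.mp hp).1⟩
  -- the number of the primes
  have hcard : (A.card : ℝ) ≤ 3 * z / Real.log w := by
    have hsub : A ⊆ (Ioc w z).filter Nat.Prime ∪ (Ioc z S).filter (fun p : ℕ => p.Prime ∧ (p : ℤ) ∣ G.eval (a : ℤ)) := by
      intro p hp
      have hp' := mem_filter.mp hp
      rw [mem_union, mem_filter, mem_filter, mem_Ioc, mem_Ioc]
      rcases Nat.lt_or_ge z p with h3 | h3
      · right
        exact ⟨⟨h3, hp'.2⟩, hA'p p hp'.1, (hdF p).mp (Nat.dvd_of_mem_primeFactors hp'.1)⟩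
      · left
        exact ⟨⟨hA'w p hp'.1, h3⟩, hA'p p hp'.1⟩
    have e1 : (A.card : ℝ) ≤ (((Ioc w z).filter Nat.Prime).card : ℝ) +
        (((Ioc z S).filter (fun p : ℕ => p.Prime ∧ (p : ℤ) ∣ G.eval (a : ℤ))).card : ℝ) := by
      exact_mod_cast (card_le_card hsub).trans (card_union_le _ _)
    have e2 := prime_card_le (z := z) (show 1 < w by omega)
    have e3 : 3 * (z : ℝ) / Real.log w = 2 * z / Real.log w + z / Real.log w := by ring
    linarith
  have haN : a ≤ N := by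
    have : (1 : ℕ) ≤ (X - a) / Q := by omega
    have h5 : 1 * Q ≤ X - a := (Nat.le_div_iff_mul_le k1).mp this
    omega
  have hlogF : Real.log F ≤ E * L := by
    have hF0 : (0 : ℝ) < F := by exact_mod_cast Nat.pos_of_ne_zero hFne
    have e3 := Real.log_le_log hF0 (hsize a haN)
    rwa [Real.log_rpow hN0, ← hL] at e3
  have hcardA' : (A'.card : ℝ) ≤ CA * L := by
    have e1 := card_log_le (w := 1) hFne (fun p hp => (hA'p p hp).one_lt) one_pos
    have e2 : 2 ^ A'.card ≤ F := by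
      calc 2 ^ A'.card = ∏ _p ∈ A', 2 := by rw [prod_const]
        _ ≤ ∏ p ∈ A', p := prod_le_prod' fun p hp => (hA'p p hp).two_le
        _ ≤ F := Nat.le_of_dvd (Nat.pos_of_ne_zero hFne) (Nat.prod_primeFactors_dvd F)
    have e3 : (2 : ℝ) ^ A'.card ≤ F := by exact_mod_cast e2
    have e4 := Real.log_le_log (by positivity) e3
    rw [Real.log_pow] at e4
    have e5 : (1 : ℝ) / 2 ≤ Real.log 2 := by
      have := Real.log_two_gt_d9
      linarith
    have e6 : (A'.card : ℝ) * (1 / 2) ≤ A'.card * Real.log 2 :=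
      mul_le_mul_of_nonneg_left e5 (Nat.cast_nonneg _)
    rw [hCA]
    linarith
  have hS0' : (0 : ℝ) < S := by exact_mod_cast k5
  have hcS : (A'.card : ℝ) / S ≤ CA * L / S := div_le_div_of_nonneg_right hcardA' hS0'.le
  have hs1 : c0 ≤ ∑ p ∈ A, rc p := by
    refine hroot.trans ?_
    calc ∑ p ∈ (Ioc w z).filter (fun p : ℕ => p.Prime ∧ ∃ r : ℕ, (p : ℤ) ∣ G.eval (r : ℤ)), (1 : ℝ) / p =
        ∑ p ∈ (Ioc w z).filter (fun p : ℕ => p.Prime ∧ ∃ r : ℕ, (p : ℤ) ∣ G.eval (r : ℤ)), rc p :=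
          sum_congr rfl fun p hp => (rc_eq (mem_filter.mp hp).2.1.pos).symm
      _ ≤ _ := by
          apply sum_le_sum_of_subset_of_nonneg _ fun p _ _ => rc_nonneg p
          intro p hp
          rw [mem_filter] at hp
          have h3 := mem_Ioc.mp hp.1
          rw [hA, mem_filter, hA', Nat.mem_primeFactors]
          refine ⟨⟨hp.2.1, ?_, hFne⟩, by omega⟩
          exact (hdF p).mpr (ha4 p hp.1 hp.2.1 hp.2.2)
  have hs2 : ∑ p ∈ A, rc p ≤ 1 / 2 := by
    refine (recip_le hAw (by omega : 0 < z)).trans ?_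
    have e1 := (abs_le.mp (hmert w z hw2' hwz)).2
    have e2 : Real.log (Real.log z / Real.log w) ≤ 9 / 20 := by
      refine le_trans ?_ log_small
      apply Real.log_le_log (by positivity)
      rw [div_le_iff₀ hlw0]
      exact g4
    have e3 : (A.card : ℝ) / z ≤ 3 / Real.log w := by
      rw [div_le_iff₀ hz0]
      refine hcard.trans (le_of_eq ?_)
      ring
    have e4 : Cm / Real.log w + 3 / Real.log w ≤ 1 / 20 := by
      rw [← add_div, div_le_iff₀ hlw0]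
      have : Cm ≤ |Cm| := le_abs_self _
      linarith
    linarith
  have hwK : 2 * ((K : ℝ) + 1) ≤ c0 * w := by
    have e1 : 2 * ((K : ℝ) + 1) / c0 ≤ w := by linarith
    rw [div_le_iff₀ hc0] at e1
    linarith
  have hMw : (X - a) / Q < (w + 1) ^ (K + 1) := by
    have : (((X - a) / Q : ℕ) : ℝ) < ((w : ℝ) + 1) ^ (K + 1) := lt_of_le_of_lt m4 g6
    exact_mod_cast this
  have hcardK : ((A.card : ℝ) + 1) ^ K ≤ τ * (((X - a) / Q : ℕ) : ℝ) := by
    calc ((A.card : ℝ) + 1) ^ K ≤ (3 * z / Real.log w + 1) ^ K :=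
          pow_le_pow_left₀ (by positivity) (by linarith) K
      _ ≤ τ / 6 * L ^ B := g5
      _ ≤ τ / 6 * (6 * (((X - a) / Q : ℕ) : ℝ)) := mul_le_mul_of_nonneg_left m7 (by positivity)
      _ = _ := by ring
  have hcard2 : (2 : ℝ) ^ A.card ≤ τ * Q := by
    refine le_trans ?_ k3
    have e1 : (2 : ℝ) ^ A.card ≤ Real.exp 1 ^ A.card := by
      apply pow_le_pow_left₀ (by norm_num)
      have := Real.add_one_le_exp (1 : ℝ)
      linarith
    refine e1.trans ?_
    rw [← Real.exp_nat_mul, mul_one]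
    apply Real.exp_le_exp.mpr
    refine hcard.trans ?_
    exact div_le_self (by positivity) (by linarith)
  have hlog0 : 0 ≤ Real.log ((2 * Q : ℕ) : ℝ) := Real.log_nonneg (by
    have : 1 ≤ 2 * Q := by omega
    exact_mod_cast this)
  have hext : (1 + Ch) * CR Ch * (1 + Real.log ((2 * Q : ℕ) : ℝ)) * ((A'.card : ℝ) / S) ≤ η / 16 := by
    refine le_trans ?_ k8
    exact mul_le_mul_of_nonneg_left hcS (by positivity)
  have hwa : w < a := by
    obtain ⟨p, hp⟩ : ((Ioc w z).filter (fun p : ℕ => p.Prime ∧ ∃ r : ℕ, (p : ℤ) ∣ G.eval (r : ℤ))).Nonempty := by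
      by_contra hc
      rw [not_nonempty_iff_eq_empty] at hc
      rw [hc, sum_empty] at hroot
      linarith
    rw [mem_filter] at hp
    have h3 := ha6 p hp.1 hp.2.1
    rw [mem_Ioc] at hp
    omega
  have hWa : W a = 0 := by
    by_contra h0
    obtain ⟨p, hp⟩ : ((Ioc w z).filter (fun p : ℕ => p.Prime ∧ ∃ r : ℕ, (p : ℤ) ∣ G.eval (r : ℤ))).Nonempty := by
      by_contra hc
      rw [not_nonempty_iff_eq_empty] at hc
      rw [hc, sum_empty] at hroot
      linarith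
    rw [mem_filter] at hp
    have h3 := ha6 p hp.1 hp.2.1
    have h4 := hW a (by omega) h0 p hp.2.1 (ha4 p hp.1 hp.2.1 hp.2.2)
    omega
  -- the values are coprime to the primes dividing `F`
  have hval : ∀ n m : ℕ, a < n → m < n → 1 ≤ m → n ≡ a [MOD m] → W n ≠ 0 → ∀ p ∈ A', ¬ p ∣ m := by
    intro n m hn hmn hm1 hnm hWn p hp hpm
    have h5 : n ≡ a [MOD p] := hnm.of_dvd hpm
    have hpp := hA'p p hp
    have h6 : (p : ℤ) ∣ G.eval (n : ℤ) :=
      (dvd_congr G h5).mpr ((hdF p).mp (Nat.dvd_of_mem_primeFactors hp))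
    have h7 := hW n (by omega) hWn p hpp h6
    have h8 := Nat.le_of_dvd hm1 hpm
    omega
  have hcop : ∀ q : ℕ, F.Coprime q ↔ Fr A' q := by
    intro q
    constructor
    · intro h3 p hp hpq
      have h4 : p ∣ Nat.gcd F q := Nat.dvd_gcd (Nat.dvd_of_mem_primeFactors hp) hpq
      rw [h3] at h4
      exact (hA'p p hp).one_lt.ne' (Nat.dvd_one.mp h4)
    · intro h3
      by_contra hc
      obtain ⟨p, hp, hd⟩ := Nat.exists_prime_and_dvd hc
      exact h3 p (Nat.mem_primeFactors.mpr ⟨hp, hd.trans (Nat.gcd_dvd_left _ _), hFne⟩)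
        (hd.trans (Nat.gcd_dvd_right _ _))
  have hfin := hasm η hη hηle (hG G) A A' w X Q a S W I lam C
    (fun p hp => hG_nonneg (hadm p hp)) (fun p hp => hG_le (hadm p hp) (hom p hp)) hAw hs1 hs2 hwK k1 m3 hMw m5
    hcardK hcard2 (filter_subset _ _) hA'p
    (fun p hp hpA => by
      by_contra hc
      push Not at hc
      exact hpA (mem_filter.mpr ⟨hp, hc⟩)) k5 (hcardA'.trans k6) (hcS.trans k7) hext hlam hC
    (fun y hy1 hy2 => hI y (k4.trans (by exact_mod_cast hy1)) hy2) m1 m2 hWa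
    (by
      intro q m hq1 hq2 hm1 hm2 hR
      have hqm : q ≤ q * m := Nat.le_mul_of_pos_right q hm1
      have hqm' : m ≤ q * m := Nat.le_mul_of_pos_left m (by omega)
      constructor
      · exact hval _ q (by omega) (by omega) (by omega) (by unfold Nat.ModEq; simp) hR
      · intro p hp
        exact hval _ m (by omega) (by omega) hm1 (by unfold Nat.ModEq; simp) hR p (mem_filter.mp hp).1)
    (by
      intro m y hm1 hmM hmF hy1 hy2
      have hmc : Int.gcd (G.eval (a : ℤ)) m = 1 := by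
        change F.Coprime m
        rw [hcop]
        intro p hp hpm
        have h3 := Nat.le_of_dvd hm1 hpm
        exact hmF p (mem_filter.mpr ⟨hp, by omega⟩) hpm
      have h5 := hsmall m a y hm1 (le_trans (by exact_mod_cast hmM) m6) hmc
        (k4.trans (by exact_mod_cast hy1)) hy2
      rw [gg_hG hadm hm1]
      exact h5)
  refine ⟨a, ha2, (ha1.trans k2).trans (Real.rpow_le_rpow_of_exponent_le hN1 (min_le_left _ _)),
    ha3 2 Nat.prime_two hw2', k1, ?_⟩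
  have hfil : (Ioc Q (2 * Q)).filter (fun q : ℕ => Int.gcd (G.eval (a : ℤ)) q = 1) =
      (Ioc Q (2 * Q)).filter (Fr A') := by
    apply filter_congr
    intro q _
    exact hcop q
  rw [hfil]
  have hsum : ∑ q ∈ (Ioc Q (2 * Q)).filter (Fr A'), C * (gg (hG G) q / q) * I X =
      ∑ q ∈ (Ioc Q (2 * Q)).filter (Fr A'), C * (1 / (rhoG G q : ℝ)) * I X := by
    refine sum_congr rfl fun q hq => ?_
    rw [mem_filter, mem_Ioc] at hq
    rw [gg_hG hadm (by omega)]
  rw [hsum] at hfin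
  exact hfin

end Pool.Agent.H537.GP
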