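import Pool.Agent.H537.GP.Size
import Pool.Agent.H537.GP.Fin

/-! Almost all constant terms, one parity. -/

set_option autoImplicit false
set_option maxHeartbeats 4000000

open Finset Polynomial Filter

namespace Pool.Agent.H537.GP

open Pool.Agent.H544.LD Pool.Agent.H537.FG Pool.Agent.H537.FT
open Pool.Agent.H373R2.T7 (lamP lamP_nonneg)

theorem rhoG_pos {G : ℤ[X]} (hadm : ∀ p : ℕ, p.Prime → omG G p < p) {q : ℕ} (hq : 1 ≤ q) :
    (0 : ℝ) < rhoG G q := by
  rw [rhoG_eq G hq]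
  apply mul_pos (by exact_mod_cast hq)
  apply prod_pos
  intro p hp
  have hpp := Nat.prime_of_mem_primeFactors hp
  have h1 : (omG G p : ℝ) < p := by exact_mod_cast hadm p hpp
  have hp0 : (0 : ℝ) < p := by exact_mod_cast hpp.pos
  have : (omG G p : ℝ) / p < 1 := by
    rw [div_lt_one hp0]
    exact h1
  linarith

theorem rhoG_le (G : ℤ[X]) (q : ℕ) : (rhoG G q : ℝ) ≤ q := by
  have : rhoG G q ≤ q := by
    unfold rhoG
    exact (card_filter_le _ _).trans (by rw [card_range])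
  exact_mod_cast this

theorem gcd_mod (G : ℤ[X]) (a q : ℕ) :
    Int.gcd (G.eval ((a % q : ℕ) : ℤ)) q = Int.gcd (G.eval (a : ℤ)) q := by
  have h1 : ((a : ℤ) - ((a % q : ℕ) : ℤ)) = q * ((a / q : ℕ) : ℤ) := by
    have := Nat.div_add_mod a q
    have h2 : ((q * (a / q) + a % q : ℕ) : ℤ) = (a : ℤ) := by rw [this]
    push_cast at h2 ⊢
    linarith
  have h2 : (q : ℤ) ∣ G.eval (a : ℤ) - G.eval ((a % q : ℕ) : ℤ) :=
    (Dvd.intro _ h1.symm).trans (sub_dvd_eval_sub _ _ _)
  obtain ⟨t, ht⟩ := h2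
  have h3 : G.eval (a : ℤ) = G.eval ((a % q : ℕ) : ℤ) + t * q := by linarith
  rw [h3, Int.gcd_add_mul_right_left]

/-- conditions on one coordinate -/
theorem box_coord {k : ℕ} (A : Fin k → ℕ) (i : Fin k) (P : ℕ → Prop) [DecidablePred P] (β : ℝ)
    (h : (((Icc 1 (A i)).filter P).card : ℝ) ≤ A i * β) :
    (((Bx A).filter (fun c => P (c i))).card : ℝ) ≤ (∏ j, (A j : ℝ)) * β := by
  have h1 : (Bx A).filter (fun c => P (c i)) =
      Fintype.piFinset (fun j => (Icc 1 (A j)).filter (fun t => j = i → P t)) := by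
    ext c
    rw [mem_filter, Fintype.mem_piFinset]
    unfold Bx
    rw [Fintype.mem_piFinset]
    constructor
    · rintro ⟨h1, h2⟩ j
      rw [mem_filter]
      refine ⟨h1 j, ?_⟩
      rintro rfl
      exact h2
    · intro h1
      exact ⟨fun j => (mem_filter.mp (h1 j)).1, (mem_filter.mp (h1 i)).2 rfl⟩
  rw [h1, Fintype.card_piFinset, ← mul_prod_erase univ _ (mem_univ i)]
  rw [← mul_prod_erase univ (fun j => (A j : ℝ)) (mem_univ i)]
  push_cast
  have h2 : ∀ j ∈ univ.erase i, (((Icc 1 (A j)).filter (fun t => j = i → P t)).card : ℝ) = A j := by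
    intro j hj
    have hji := ne_of_mem_erase hj
    rw [filter_true_of_mem fun t _ h => absurd h hji]
    simp
  rw [prod_congr rfl h2]
  have h3 : (Icc 1 (A i)).filter (fun t => i = i → P t) = (Icc 1 (A i)).filter P := by
    apply filter_congr
    intro t _
    simp
  rw [h3]
  calc (((Icc 1 (A i)).filter P).card : ℝ) * ∏ j ∈ univ.erase i, (A j : ℝ) ≤
      (A i * β) * ∏ j ∈ univ.erase i, (A j : ℝ) :=
        mul_le_mul_of_nonneg_right h (prod_nonneg fun _ _ => Nat.cast_nonneg _)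
    _ = _ := by ring

theorem ev_log_pow (m : ℕ) (C δ : ℝ) (hC : 0 ≤ C) (hδ : 0 < δ) :
    ∀ᶠ L : ℝ in atTop, (1 + C * Real.log L) ^ m ≤ δ * L := by
  have h1 := (Real.isLittleO_pow_log_id_atTop (n := m)).bound (c := δ / (1 + C) ^ m) (by positivity)
  filter_upwards [h1, Real.tendsto_log_atTop.eventually_ge_atTop 1, eventually_gt_atTop (0 : ℝ)]
    with L h2 h3 h4
  rw [id, Real.norm_of_nonneg h4.le, Real.norm_of_nonneg (by positivity)] at h2
  calc (1 + C * Real.log L) ^ m ≤ ((1 + C) * Real.log L) ^ m := by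
        apply pow_le_pow_left₀ (by positivity)
        nlinarith
    _ = (1 + C) ^ m * Real.log L ^ m := mul_pow _ _ _
    _ ≤ (1 + C) ^ m * (δ / (1 + C) ^ m * L) := mul_le_mul_of_nonneg_left h2 (by positivity)
    _ = δ * L := by field_simp

open Classical in
theorem almost_parity {k : ℕ} (hk : 1 ≤ k) (F : Fin k → ℤ[X]) (hd : ∀ i, 1 ≤ (F i).natDegree)
    (hl : ∀ i, 0 < (F i).leadingCoeff) (B : ℝ) (hB : 0 < B)
    (ε : ℝ) (hε : 0 < ε) (K : ℕ) (hK2 : 2 ≤ K) (hBK : B < K) :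
    ∃ η₀ : ℝ, 0 < η₀ ∧ ∀ η : ℝ, 0 < η → η ≤ η₀ → ∀ B₁ U : ℕ, 1 ≤ B₁ →
      ∃ E₀ : ℕ, ∀ E : ℕ, ∀ᶠ x : ℕ in atTop,
      ∀ A : Fin k → ℕ, (∀ i, A i ≤ B₁ * x ^ (F i).natDegree ∧ x ^ (F i).natDegree ≤ B₁ * A i) →
      ∀ z : ℕ, Real.log x ^ E₀ ≤ z → (z : ℝ) ≤ Real.log x ^ E →
      (((Bx A).filter (fun c => (∀ p : ℕ, p.Prime → om (Hp F c) p < p) ∧
        ¬ ∃ a : ℕ, 1 ≤ a ∧ (a : ℝ) ≤ (x : ℝ) ^ ε ∧
          0 < ∑ q ∈ (Ioc ⌊(x : ℝ) / Real.log x ^ B⌋₊ (2 * ⌊(x : ℝ) / Real.log x ^ B⌋₊)).filter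
            (fun q : ℕ => Int.gcd ((Hp F c).eval (a : ℤ)) q = 1), Cz F c z * (1 / (rho (Hp F c) q : ℝ)) * x ∧
          η * ∑ q ∈ (Ioc ⌊(x : ℝ) / Real.log x ^ B⌋₊ (2 * ⌊(x : ℝ) / Real.log x ^ B⌋₊)).filter
            (fun q : ℕ => Int.gcd ((Hp F c).eval (a : ℤ)) q = 1), Cz F c z * (1 / (rho (Hp F c) q : ℝ)) * x ≤
          (-1) ^ K * (∑ q ∈ (Ioc ⌊(x : ℝ) / Real.log x ^ B⌋₊ (2 * ⌊(x : ℝ) / Real.log x ^ B⌋₊)).filter
            (fun q : ℕ => Int.gcd ((Hp F c).eval (a : ℤ)) q = 1), th F c x q (a % q) -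
            ∑ q ∈ (Ioc ⌊(x : ℝ) / Real.log x ^ B⌋₊ (2 * ⌊(x : ℝ) / Real.log x ^ B⌋₊)).filter
            (fun q : ℕ => Int.gcd ((Hp F c).eval (a : ℤ)) q = 1),
              Cz F c z * (1 / (rho (Hp F c) q : ℝ)) * x))).card : ℝ) ≤
        (∏ i, (A i : ℝ)) / Real.log x ^ U := by
  set i0 : Fin k := ⟨0, by omega⟩ with hi0
  set D : ℕ := ∑ i, (F i).natDegree with hD
  obtain ⟨c₁, hc₁, hroot'⟩ := root_ev (F i0) (hd i0) (hl i0) B hB K hK2 hBK
  obtain ⟨Es, hEs, hsize'⟩ := Hp_size F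
  choose n₁ C₀ hval using fun i => value_ge (F i) (hd i) (hl i)
  obtain ⟨c₂, hc₂, hCz⟩ := Cz_ge k D
  obtain ⟨η₀, hη₀, hpar⟩ := parityG D Es hEs (∑ i, n₁ i) c₁ hc₁ B hB ε hε K hK2 hBK
  refine ⟨η₀, hη₀, fun η hη hηle B₁ U hB₁ => ?_⟩
  have hroot := hroot' B₁ ((U : ℝ) + 2)
  have hsize := hsize' B₁
  obtain ⟨m, hm⟩ := exists_nat_gt (3 * B + 4)
  set U' : ℕ := max m (U + 2) with hU'
  obtain ⟨E₀, hE₀⟩ := fin_all F hd hl B₁ hB₁ U'
  refine ⟨E₀, fun E => ?_⟩
  obtain ⟨Dx, N₀, hfin⟩ := hE₀ E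
  have hlogX : Tendsto (fun X : ℕ => Real.log (X : ℝ)) atTop atTop :=
    Real.tendsto_log_atTop.comp tendsto_natCast_atTop_atTop
  -- `L ^ (B + 1) ≤ x exp (- D (log L) ^ 2)`
  have t1 : ∀ᶠ L : ℝ in atTop, (B + 1) * Real.log L + Dx * Real.log L ^ 2 ≤ L := by
    have h1 := Real.isLittleO_log_id_atTop.bound (c := 1 / (2 * (B + 1))) (by positivity)
    have h2 := (Real.isLittleO_pow_log_id_atTop (n := 2)).bound (c := 1 / (2 * ((Dx : ℝ) + 1))) (by positivity)
    filter_upwards [h1, h2, eventually_ge_atTop (1 : ℝ)] with L h3 h4 h5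
    have hl0 := Real.log_nonneg h5
    rw [id, Real.norm_of_nonneg hl0, Real.norm_of_nonneg (by linarith)] at h3
    rw [id, Real.norm_of_nonneg (by positivity), Real.norm_of_nonneg (by linarith)] at h4
    have e1 : (B + 1) * Real.log L ≤ (B + 1) * (1 / (2 * (B + 1)) * L) :=
      mul_le_mul_of_nonneg_left h3 (by linarith)
    have e2 : (Dx : ℝ) * Real.log L ^ 2 ≤ ((Dx : ℝ) + 1) * (1 / (2 * ((Dx : ℝ) + 1)) * L) := by
      apply mul_le_mul (by linarith) h4 (by positivity) (by positivity)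
    have e3 : (B + 1) * (1 / (2 * (B + 1)) * L) = L / 2 := by field_simp
    have e4 : ((Dx : ℝ) + 1) * (1 / (2 * ((Dx : ℝ) + 1)) * L) = L / 2 := by field_simp
    linarith
  have t2 := ev_log_pow (2 * D) E (η * c₂) (Nat.cast_nonneg _) (by positivity)
  -- the small constant terms
  have t3 : ∀ᶠ x : ℕ in atTop, ((∑ i, C₀ i : ℕ) : ℝ) * B₁ * (k * Real.log x ^ (U + 2)) ≤ x := by
    have h1 := ((Real.isLittleO_pow_log_id_atTop (n := U + 2)).comp_tendsto
      tendsto_natCast_atTop_atTop).bound (c := 1 / (((∑ i, C₀ i : ℕ) : ℝ) * B₁ * k + 1)) (by positivity)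
    filter_upwards [h1, hlogX.eventually_ge_atTop 0] with x h2 h3
    simp only [Function.comp_apply, id] at h2
    rw [Real.norm_of_nonneg (by positivity), Real.norm_of_nonneg (Nat.cast_nonneg _)] at h2
    set Cc : ℝ := ((∑ i, C₀ i : ℕ) : ℝ) * B₁ * k with hCc
    have hCc0 : 0 ≤ Cc := by positivity
    calc ((∑ i, C₀ i : ℕ) : ℝ) * B₁ * (k * Real.log x ^ (U + 2)) = Cc * Real.log x ^ (U + 2) := by
          rw [hCc]
          ring
      _ ≤ (Cc + 1) * (1 / (Cc + 1) * x) := by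
          apply mul_le_mul (by linarith) h2 (by positivity) (by positivity)
      _ = x := by field_simp
  filter_upwards [hroot, hsize, hpar η hη hηle, hlogX.eventually t1, hlogX.eventually t2, t3,
    hlogX.eventually_ge_atTop 3, eventually_ge_atTop N₀, eventually_ge_atTop 3]
    with x r1 r2 r3 r4 r5 r6 r7 r8 r9 A hA z hz1 hz2
  set L := Real.log (x : ℝ) with hL
  have hL0 : 0 < L := by linarith
  have hL1 : 1 ≤ L := by linarith
  have hx0 : (0 : ℝ) < x := by
    have : 0 < x := by omega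
    exact_mod_cast this
  have hxexp : (x : ℝ) = Real.exp L := by rw [hL, Real.exp_log hx0]
  -- the bad sets
  set Bad1 := (Bx A).filter (fun a => ¬ ∀ Q : ℕ, (Q : ℝ) ≤ x * Real.exp (-(Dx * Real.log (Real.log x) ^ 2)) →
          ∀ y : ℕ → ℕ → ℕ, (∀ q r, y q r ≤ x) →
          ∑ q ∈ Icc 1 Q, (∑ r ∈ range q, |th F a (y q r) q r - mu F a z q r * y q r|) / (range q).card ≤
            x / Real.log x ^ U') with hBad1
  have hb1 : (Bad1.card : ℝ) ≤ (∏ i, (A i : ℝ)) / L ^ U' :=
    hfin x r8 A hA z hz1 hz2 (fun q => range q) (fun q => Subset.refl _)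
  set P2 : ℕ → Prop := fun c : ℕ => ∑ p ∈ (Ioc (wF B K L) (zF B K L)).filter
        (fun p : ℕ => p.Prime ∧ ∃ r : ℕ, (p : ℤ) ∣ (F i0).eval (r : ℤ) + c), (1 : ℝ) / p < c₁ with hP2
  set Bad2 := (Bx A).filter (fun c => P2 (c i0)) with hBad2
  have hprodA : 0 ≤ ∏ i, (A i : ℝ) := prod_nonneg fun _ _ => Nat.cast_nonneg _
  have hb2 : (Bad2.card : ℝ) ≤ (∏ i, (A i : ℝ)) * (1 / L ^ (U + 2)) := by
    apply box_coord A i0 P2
    have h1 := r1 (A i0) (hA i0).2
    refine h1.trans (le_of_eq ?_)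
    rw [mul_one_div]
    congr 1
    rw [show (U : ℝ) + 2 = ((U + 2 : ℕ) : ℝ) by push_cast; ring, Real.rpow_natCast]
  set Bad3 := univ.biUnion (fun i => (Bx A).filter (fun c => c i < C₀ i)) with hBad3
  have hb3 : (Bad3.card : ℝ) ≤ (∏ i, (A i : ℝ)) * (1 / L ^ (U + 2)) := by
    have h1 : ∀ i : Fin k, (((Bx A).filter (fun c => c i < C₀ i)).card : ℝ) ≤
        (∏ j, (A j : ℝ)) * (1 / (k * L ^ (U + 2))) := by
      intro i
      apply box_coord A i (fun t => t < C₀ i)
      have h2 : ((Icc 1 (A i)).filter (fun t => t < C₀ i)).card ≤ C₀ i := by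
        calc ((Icc 1 (A i)).filter (fun t => t < C₀ i)).card ≤ (range (C₀ i)).card := by
              apply card_le_card
              intro t ht
              rw [mem_filter] at ht
              exact mem_range.mpr ht.2
          _ = C₀ i := card_range _
      have h3 : (C₀ i : ℝ) ≤ ((∑ i, C₀ i : ℕ) : ℝ) := by
        exact_mod_cast single_le_sum (f := C₀) (fun i _ => Nat.zero_le _) (mem_univ i)
      have hB0 : (0 : ℝ) < B₁ := by exact_mod_cast hB₁
      have hk0 : (0 : ℝ) < k := by exact_mod_cast hk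
      have h4 : (x : ℝ) ≤ B₁ * A i := by
        have h5 : ((x ^ (F i).natDegree : ℕ) : ℝ) ≤ ((B₁ * A i : ℕ) : ℝ) := by exact_mod_cast (hA i).2
        push_cast at h5
        have hx1 : (1 : ℝ) ≤ x := by
          have : 1 ≤ x := by omega
          exact_mod_cast this
        calc (x : ℝ) = (x : ℝ) ^ 1 := (pow_one _).symm
          _ ≤ (x : ℝ) ^ (F i).natDegree := pow_le_pow_right₀ hx1 (hd i)
          _ ≤ _ := h5
      calc (((Icc 1 (A i)).filter (fun t => t < C₀ i)).card : ℝ) ≤ C₀ i := by exact_mod_cast h2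
        _ ≤ A i * (1 / (k * L ^ (U + 2))) := by
            rw [mul_one_div, le_div_iff₀ (by positivity)]
            have h6 : (C₀ i : ℝ) * B₁ * (k * L ^ (U + 2)) ≤ B₁ * A i := by
              refine le_trans ?_ (r6.trans h4)
              apply mul_le_mul_of_nonneg_right _ (by positivity)
              exact mul_le_mul_of_nonneg_right h3 hB0.le
            have h7 : (B₁ : ℝ) * ((C₀ i : ℝ) * (k * L ^ (U + 2))) ≤ B₁ * A i := by linarith
            exact le_of_mul_le_mul_left h7 hB0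
    have hk0 : (0 : ℝ) < k := by exact_mod_cast hk
    calc (Bad3.card : ℝ) ≤ ∑ i : Fin k, (((Bx A).filter (fun c => c i < C₀ i)).card : ℝ) := by
          exact_mod_cast card_biUnion_le
      _ ≤ ∑ _i : Fin k, (∏ j, (A j : ℝ)) * (1 / (k * L ^ (U + 2))) := sum_le_sum fun i _ => h1 i
      _ = _ := by
          rw [sum_const, card_univ, Fintype.card_fin, nsmul_eq_mul]
          field_simp
  -- the good constant terms
  have hsub : (Bx A).filter (fun c => (∀ p : ℕ, p.Prime → om (Hp F c) p < p) ∧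
        ¬ ∃ a : ℕ, 1 ≤ a ∧ (a : ℝ) ≤ (x : ℝ) ^ ε ∧
          0 < ∑ q ∈ (Ioc ⌊(x : ℝ) / L ^ B⌋₊ (2 * ⌊(x : ℝ) / L ^ B⌋₊)).filter
            (fun q : ℕ => Int.gcd ((Hp F c).eval (a : ℤ)) q = 1), Cz F c z * (1 / (rho (Hp F c) q : ℝ)) * x ∧
          η * ∑ q ∈ (Ioc ⌊(x : ℝ) / L ^ B⌋₊ (2 * ⌊(x : ℝ) / L ^ B⌋₊)).filter
            (fun q : ℕ => Int.gcd ((Hp F c).eval (a : ℤ)) q = 1), Cz F c z * (1 / (rho (Hp F c) q : ℝ)) * x ≤
          (-1) ^ K * (∑ q ∈ (Ioc ⌊(x : ℝ) / L ^ B⌋₊ (2 * ⌊(x : ℝ) / L ^ B⌋₊)).filter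
            (fun q : ℕ => Int.gcd ((Hp F c).eval (a : ℤ)) q = 1), th F c x q (a % q) -
            ∑ q ∈ (Ioc ⌊(x : ℝ) / L ^ B⌋₊ (2 * ⌊(x : ℝ) / L ^ B⌋₊)).filter
            (fun q : ℕ => Int.gcd ((Hp F c).eval (a : ℤ)) q = 1),
              Cz F c z * (1 / (rho (Hp F c) q : ℝ)) * x)) ⊆ Bad1 ∪ Bad2 ∪ Bad3 := by
    intro c hc
    rw [mem_filter] at hc
    obtain ⟨hcB, hadm, hno⟩ := hc
    by_contra hbad
    rw [mem_union, mem_union, not_or, not_or] at hbad
    obtain ⟨⟨hnb1, hnb2⟩, hnb3⟩ := hbad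
    apply hno
    have hcA : ∀ i, 1 ≤ c i ∧ c i ≤ A i := by
      intro i
      unfold Bx at hcB
      exact mem_Icc.mp (Fintype.mem_piFinset.mp hcB i)
    have hcB1 : ∀ i, c i ≤ B₁ * x ^ (F i).natDegree := fun i => (hcA i).2.trans (hA i).1
    have hgood : ∀ Q : ℕ, (Q : ℝ) ≤ x * Real.exp (-(Dx * Real.log (Real.log x) ^ 2)) →
          ∀ y : ℕ → ℕ → ℕ, (∀ q r, y q r ≤ x) →
          ∑ q ∈ Icc 1 Q, (∑ r ∈ range q, |th F c (y q r) q r - mu F c z q r * y q r|) / (range q).card ≤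
            x / Real.log x ^ U' := by
      by_contra hcon
      exact hnb1 (mem_filter.mpr ⟨hcB, hcon⟩)
    have hroots : c₁ ≤ ∑ p ∈ (Ioc (wF B K L) (zF B K L)).filter
        (fun p : ℕ => p.Prime ∧ ∃ r : ℕ, (p : ℤ) ∣ (Hp F c).eval (r : ℤ)), (1 : ℝ) / p := by
      have h1 : c₁ ≤ ∑ p ∈ (Ioc (wF B K L) (zF B K L)).filter
        (fun p : ℕ => p.Prime ∧ ∃ r : ℕ, (p : ℤ) ∣ (F i0).eval (r : ℤ) + (c i0 : ℕ)), (1 : ℝ) / p := by
        by_contra hcon
        push Not at hcon
        exact hnb2 (mem_filter.mpr ⟨hcB, hcon⟩)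
      refine h1.trans (sum_le_sum_of_subset_of_nonneg ?_ fun _ _ _ => by positivity)
      intro p hp
      rw [mem_filter] at hp ⊢
      obtain ⟨h2, h3, r, h4⟩ := hp
      refine ⟨h2, h3, r, ?_⟩
      rw [Hp_eval]
      refine Dvd.dvd.trans ?_ (dvd_prod_of_mem _ (mem_univ i0))
      rwa [add_comm]
    have hcC : ∀ i, C₀ i ≤ c i := by
      intro i
      by_contra hcon
      push Not at hcon
      exact hnb3 (mem_biUnion.mpr ⟨i, mem_univ _, mem_filter.mpr ⟨hcB, hcon⟩⟩)
    have hCzc := hCz F c le_rfl hadm z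
    have hlz : 0 ≤ Real.log (z : ℝ) := Real.log_natCast_nonneg z
    have hCz0 : 0 < Cz F c z := lt_of_lt_of_le (by positivity) hCzc
    have key := r3 (Hp F c) x (fun n => ∏ i, lamP (va F c i n)) (fun y => (y : ℝ)) 1 (Cz F c z)
      (Hp_deg F c) (r2 c hcB1) hadm hroots (by linarith) le_rfl one_pos hCz0
      (by
        intro n hn hW p hp hpn
        rw [Hp_va] at hpn
        obtain ⟨i, _, hi⟩ := ((Nat.prime_iff_prime_int.mp hp).dvd_finsetProd_iff _).mp hpn
        have h1 : lamP (va F c i n) ≠ 0 := fun h0 => hW (prod_eq_zero (mem_univ i) h0)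
        have h2 : (va F c i n).toNat.Prime := by
          by_contra hcon
          apply h1
          unfold lamP
          rw [if_neg hcon]
        have h3 : 0 < va F c i n := by
          have := h2.pos
          omega
        have h4 : p ∣ (va F c i n).toNat := by
          have : (p : ℤ) ∣ ((va F c i n).toNat : ℤ) := by
            rw [Int.toNat_of_nonneg h3.le]
            exact hi
          exact_mod_cast this
        have h5 := (Nat.prime_dvd_prime_iff_eq hp h2).mp h4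
        have h6 := hval i n (le_trans (single_le_sum (f := n₁) (fun i _ => Nat.zero_le _) (mem_univ i)) hn)
        have h7 := hcC i
        have h8 : (n : ℤ) ≤ va F c i n := by
          unfold va
          have : (C₀ i : ℤ) ≤ c i := by exact_mod_cast h7
          linarith
        omega)
      (by
        intro y _ _
        simp only [one_mul, sub_self, abs_zero]
        positivity)
      (by
        intro q a y hq hqL hg hy1 hy2
        have hq0 : (0 : ℝ) < q := by exact_mod_cast hq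
        have hQle : (q : ℝ) ≤ x * Real.exp (-(Dx * Real.log (Real.log x) ^ 2)) := by
          refine hqL.trans ?_
          have e1 : L ^ (B + 1) = Real.exp ((B + 1) * Real.log L) := by
            rw [Real.rpow_def_of_pos hL0]
            congr 1
            ring
          rw [e1, hxexp, ← Real.exp_add]
          apply Real.exp_le_exp.mpr
          rw [Real.log_exp]
          linarith
        have h1 := hgood q hQle (fun _ _ => y) (fun _ _ => hy2)
        have h2 : (∑ r ∈ range q, |th F c y q r - mu F c z q r * y|) / (range q).card ≤ x / L ^ U' := by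
          refine le_trans ?_ h1
          exact single_le_sum (f := fun q : ℕ => (∑ r ∈ range q, |th F c y q r - mu F c z q r * y|) /
            ((range q).card : ℝ)) (fun i _ => div_nonneg (sum_nonneg fun _ _ => abs_nonneg _)
              (Nat.cast_nonneg _)) (mem_Icc.mpr ⟨hq, le_rfl⟩)
        rw [card_range, div_le_iff₀ hq0] at h2
        have h3 : |th F c y q (a % q) - mu F c z q (a % q) * y| ≤ x / L ^ U' * q := by
          refine le_trans ?_ h2
          exact single_le_sum (f := fun r : ℕ => |th F c y q r - mu F c z q r * y|)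
            (fun _ _ => abs_nonneg _) (mem_range.mpr (Nat.mod_lt _ hq))
        have hmu : mu F c z q (a % q) = Cz F c z / rho (Hp F c) q := by
          unfold mu
          rw [if_pos]
          rw [gcd_mod]
          exact hg
        have hth : th F c y q (a % q) = cntW (fun n => ∏ i, lamP (va F c i n)) y a q := rfl
        rw [hmu, hth] at h3
        have hrho : (rho (Hp F c) q : ℝ) = rhoG (Hp F c) q := rfl
        rw [hrho] at h3
        have hrpos : (0 : ℝ) < rhoG (Hp F c) q := rhoG_pos hadm hq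
        have hrle : (rhoG (Hp F c) q : ℝ) ≤ L ^ (B + 1) := (rhoG_le _ _).trans hqL
        have hLB : 0 < L ^ (B + 1) := Real.rpow_pos_of_pos hL0 _
        have e0 : Cz F c z * (1 / (rhoG (Hp F c) q : ℝ)) * y = Cz F c z / rhoG (Hp F c) q * y := by ring
        rw [e0]
        refine h3.trans ?_
        -- the main term is large
        have hzL : 1 + Real.log z ≤ 1 + E * Real.log L := by
          rcases Nat.eq_zero_or_pos z with h0 | h0
          · have hLl : 0 ≤ Real.log L := Real.log_nonneg hL1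
            rw [h0]
            simp only [Nat.cast_zero, Real.log_zero]
            have : 0 ≤ (E : ℝ) * Real.log L := by positivity
            linarith
          · have h5 := Real.log_le_log (by exact_mod_cast h0) hz2
            rw [Real.log_pow] at h5
            linarith
        have e1 : c₂ / (η * c₂ * L) ≤ Cz F c z := by
          refine le_trans ?_ hCzc
          apply div_le_div_of_nonneg_left hc₂.le (by positivity)
          exact (pow_le_pow_left₀ (by linarith) hzL _).trans r5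
        have e2 : 1 / (η * L) ≤ Cz F c z := by
          refine le_trans (le_of_eq ?_) e1
          field_simp
        have e3 : 1 / (η * L) * (1 / L ^ (B + 1)) * (x / L ^ (B + 1)) ≤ Cz F c z / rhoG (Hp F c) q * y := by
          rw [div_eq_mul_one_div (Cz F c z)]
          apply mul_le_mul _ hy1 (by positivity) (by positivity)
          apply mul_le_mul e2 _ (by positivity) hCz0.le
          exact one_div_le_one_div_of_le hrpos hrle
        have e4 : L ^ (3 * B + 4) ≤ L ^ U' := by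
          rw [← Real.rpow_natCast L U']
          apply Real.rpow_le_rpow_of_exponent_le hL1
          have : (m : ℝ) ≤ U' := by
            rw [hU']
            exact_mod_cast le_max_left _ _
          linarith
        have e5 : L ^ (3 * B + 4) = L ^ (B + 1) * L ^ (B + 1) * L ^ (B + 1) * L := by
          rw [show 3 * B + 4 = (B + 1) + (B + 1) + (B + 1) + 1 by ring, Real.rpow_add_one hL0.ne',
            Real.rpow_add hL0, Real.rpow_add hL0]
        calc (x : ℝ) / L ^ U' * q ≤ x / L ^ (3 * B + 4) * L ^ (B + 1) := by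
              apply mul_le_mul _ hqL hq0.le (by positivity)
              exact div_le_div_of_nonneg_left hx0.le (by positivity) e4
          _ = η * (1 / (η * L) * (1 / L ^ (B + 1)) * (x / L ^ (B + 1))) := by
              rw [e5]
              field_simp
          _ ≤ _ := mul_le_mul_of_nonneg_left e3 hη.le)
    obtain ⟨a, ha1, ha2, ha3, hQ1, ha4⟩ := key
    refine ⟨a, ha1, ha2, ?_, ha4⟩
    -- the sum is positive
    set Q := ⌊(x : ℝ) / L ^ B⌋₊ with hQd
    obtain ⟨j, hj1, hj2⟩ : ∃ j : ℕ, Q < 2 ^ j ∧ 2 ^ j ≤ 2 * Q := by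
      refine ⟨Nat.log 2 Q + 1, Nat.lt_pow_succ_log_self (by norm_num) Q, ?_⟩
      rw [pow_succ]
      have := Nat.pow_log_le_self 2 (by omega : Q ≠ 0)
      omega
    have hcop : Int.gcd ((Hp F c).eval (a : ℤ)) ((2 ^ j : ℕ) : ℤ) = 1 := by
      rw [← Int.isCoprime_iff_gcd_eq_one]
      push_cast
      apply IsCoprime.pow_right
      rw [isCoprime_comm]
      exact (Prime.coprime_iff_not_dvd Int.prime_two).mpr ha3
    refine sum_pos (fun q hq => ?_) ⟨2 ^ j, mem_filter.mpr ⟨mem_Ioc.mpr ⟨hj1, hj2⟩, hcop⟩⟩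
    rw [mem_filter, mem_Ioc] at hq
    have hrpos : (0 : ℝ) < rho (Hp F c) q := rhoG_pos hadm (by omega : 1 ≤ q)
    positivity
  have hfin2 := card_le_card hsub
  have hfin3 : ((Bad1 ∪ Bad2 ∪ Bad3).card : ℝ) ≤ Bad1.card + Bad2.card + Bad3.card := by
    have h1 := card_union_le (Bad1 ∪ Bad2) Bad3
    have h2 := card_union_le Bad1 Bad2
    have h3 : (Bad1 ∪ Bad2 ∪ Bad3).card ≤ Bad1.card + Bad2.card + Bad3.card := by omega
    exact_mod_cast h3
  refine le_trans (by exact_mod_cast hfin2) (hfin3.trans ?_)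
  have hU2 : L ^ (U + 2) ≤ L ^ U' := pow_le_pow_right₀ hL1 (le_max_right _ _)
  have hb1' : (Bad1.card : ℝ) ≤ (∏ i, (A i : ℝ)) * (1 / L ^ (U + 2)) := by
    refine hb1.trans ?_
    rw [mul_one_div]
    exact div_le_div_of_nonneg_left hprodA (by positivity) hU2
  have hLL : 3 * (1 / L ^ (U + 2)) ≤ 1 / L ^ U := by
    rw [mul_one_div, div_le_div_iff₀ (by positivity) (by positivity), pow_add]
    have : 3 ≤ L ^ 2 := by nlinarith
    have h0 : 0 < L ^ U := by positivity
    nlinarith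
  calc (Bad1.card : ℝ) + Bad2.card + Bad3.card ≤ (∏ i, (A i : ℝ)) * (3 * (1 / L ^ (U + 2))) := by linarith
    _ ≤ (∏ i, (A i : ℝ)) * (1 / L ^ U) := mul_le_mul_of_nonneg_left hLL hprodA
    _ = _ := by rw [mul_one_div]

end Pool.Agent.H537.GP
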