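import Pool.Agent.H537.GP.Poly

/-! Primes for which a polynomial with a random constant term has a zero. -/

set_option autoImplicit false
set_option maxHeartbeats 4000000

open Finset Polynomial

namespace Pool.Agent.H537.GP

/-- sums of products over a complete system of residues -/
theorem sum_crt (S : Finset ℕ) (hS : ∀ p ∈ S, p.Prime) (g : ℕ → ℕ → ℝ) :
    ∑ b ∈ range (∏ p ∈ S, p), ∏ p ∈ S, g p (b % p) = ∏ p ∈ S, ∑ a ∈ range p, g p a := by
  classical
  induction S using Finset.induction_on with
  | empty => simp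
  | insert p S hp ih =>
    have ih' := ih (fun q hq => hS q (mem_insert_of_mem hq))
    have hpp := hS p (mem_insert_self _ _)
    rw [prod_insert hp, prod_insert hp, ← ih', sum_mul_sum]
    set W := ∏ q ∈ S, q with hW
    have hW0 : 0 < W := prod_pos fun q hq => (hS q (mem_insert_of_mem hq)).pos
    have hcop : Nat.Coprime p W := by
      refine Nat.Coprime.prod_right fun q hq => ?_
      exact (Nat.coprime_primes hpp (hS q (mem_insert_of_mem hq))).2 (fun h => hp (h ▸ hq))
    have hdvd : ∀ q ∈ S, q ∣ W := fun q hq => dvd_prod_of_mem _ hq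
    rw [← sum_product']
    refine sum_bij (fun b _ => (b % p, b % W)) ?_ ?_ ?_ ?_
    · intro b _
      rw [mem_product, mem_range, mem_range]
      exact ⟨Nat.mod_lt _ hpp.pos, Nat.mod_lt _ hW0⟩
    · intro b hb b' hb' h
      rw [mem_range] at hb hb'
      have h1 : b ≡ b' [MOD p] := (Prod.mk.inj h).1
      have h2 : b ≡ b' [MOD W] := (Prod.mk.inj h).2
      exact Nat.ModEq.eq_of_lt_of_lt ((Nat.modEq_and_modEq_iff_modEq_mul hcop).1 ⟨h1, h2⟩) hb hb'
    · rintro ⟨c, d⟩ hcd
      rw [mem_product, mem_range, mem_range] at hcd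
      obtain ⟨hc, hd⟩ := hcd
      simp only at hc hd
      obtain ⟨k, hk1, hk2⟩ := Nat.chineseRemainder hcop c d
      refine ⟨k % (p * W), mem_range.mpr (Nat.mod_lt _ (Nat.mul_pos hpp.pos hW0)), ?_⟩
      apply Prod.ext
      · show k % (p * W) % p = c
        rw [Nat.mod_mod_of_dvd k (Nat.dvd_mul_right p W)]
        have : k % p = c % p := hk1
        rw [this, Nat.mod_eq_of_lt hc]
      · show k % (p * W) % W = d
        rw [Nat.mod_mod_of_dvd k (Nat.dvd_mul_left W p)]
        have : k % W = d % W := hk2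
        rw [this, Nat.mod_eq_of_lt hd]
    · intro b _
      rw [prod_insert hp]
      congr 1
      refine prod_congr rfl fun q hq => ?_
      show g q (b % q) = g q (b % W % q)
      rw [Nat.mod_mod_of_dvd b (hdvd q hq)]

open Classical in
/-- the numbers `c` modulo `p` for which `f + c` has a zero -/
theorem image_count (f : ℤ[X]) (hf : 1 ≤ f.natDegree) {p : ℕ} (hp : p.Prime)
    (hlc : ¬ (p : ℤ) ∣ f.leadingCoeff) :
    p ≤ f.natDegree * ((range p).filter (fun c : ℕ => ∃ r : ℕ, (p : ℤ) ∣ f.eval (r : ℤ) + c)).card := by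
  classical
  have : Fact p.Prime := ⟨hp⟩
  set R := (range p).filter (fun c : ℕ => ∃ r : ℕ, (p : ℤ) ∣ f.eval (r : ℤ) + c) with hR
  have hmaps : ∀ r ∈ range p, (((-(f.eval (r : ℤ))) % p).toNat) ∈ R := by
    intro r _
    have hp0 : (0 : ℤ) < p := by exact_mod_cast hp.pos
    have h1 : 0 ≤ (-(f.eval (r : ℤ))) % p := Int.emod_nonneg _ hp0.ne'
    have h2 : (-(f.eval (r : ℤ))) % p < p := Int.emod_lt_of_pos _ hp0
    rw [hR, mem_filter, mem_range]
    refine ⟨by omega, r, ?_⟩
    rw [Int.toNat_of_nonneg h1]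
    have h3 := Int.emod_add_mul_ediv (-(f.eval (r : ℤ))) p
    refine ⟨-((-(f.eval (r : ℤ))) / p), ?_⟩
    linarith
  have h1 := card_eq_sum_card_fiberwise (s := range p) (t := R)
    (f := fun r : ℕ => ((-(f.eval (r : ℤ))) % p).toNat) hmaps
  rw [card_range] at h1
  rw [h1]
  calc ∑ c ∈ R, ((range p).filter (fun r : ℕ => ((-(f.eval (r : ℤ))) % p).toNat = c)).card ≤
      ∑ _c ∈ R, f.natDegree := by
        refine sum_le_sum fun c _ => ?_
        obtain ⟨g, hg⟩ : ∃ g : (ZMod p)[X], g = (f + C (c : ℤ)).map (Int.castRingHom (ZMod p)) := ⟨_, rfl⟩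
        have hdeg : (f + C (c : ℤ)).natDegree = f.natDegree := natDegree_add_C
        have hg0 : g ≠ 0 := by
          intro h0
          have h2 : g.coeff f.natDegree = 0 := by rw [h0, coeff_zero]
          rw [hg, coeff_map, coeff_add, coeff_C, if_neg (by omega), add_zero] at h2
          apply hlc
          rw [← ZMod.intCast_zmod_eq_zero_iff_dvd]
          simpa using h2
        calc ((range p).filter (fun r : ℕ => ((-(f.eval (r : ℤ))) % p).toNat = c)).card ≤
            g.roots.toFinset.card := by
              apply card_le_card_of_injOn (fun n : ℕ => (n : ZMod p))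
              · intro r hr
                rw [mem_coe, mem_filter] at hr
                rw [mem_coe, Multiset.mem_toFinset, mem_roots hg0, IsRoot.def, hg]
                have h4 : eval ((r : ℕ) : ZMod p) ((f + C (c : ℤ)).map (Int.castRingHom (ZMod p))) =
                    (((f + C (c : ℤ)).eval (r : ℤ) : ℤ) : ZMod p) := by
                  simp
                rw [h4]
                apply (ZMod.intCast_zmod_eq_zero_iff_dvd _ _).mpr
                rw [eval_add, eval_C]
                have hp0 : (0 : ℤ) < p := by exact_mod_cast hp.pos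
                have e1 : 0 ≤ (-(f.eval (r : ℤ))) % p := Int.emod_nonneg _ hp0.ne'
                have e2 : (c : ℤ) = (-(f.eval (r : ℤ))) % p := by
                  rw [← hr.2, Int.toNat_of_nonneg e1]
                rw [e2]
                have h3 := Int.emod_add_mul_ediv (-(f.eval (r : ℤ))) p
                refine ⟨-((-(f.eval (r : ℤ))) / p), ?_⟩
                linarith
              · intro n hn m hm hnm
                rw [mem_coe, mem_filter, mem_range] at hn hm
                have h5 : (n : ZMod p) = (m : ZMod p) := hnm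
                rw [ZMod.natCast_eq_natCast_iff] at h5
                exact Nat.ModEq.eq_of_lt_of_lt h5 hn.1 hm.1
          _ ≤ Multiset.card g.roots := Multiset.toFinset_card_le _
          _ ≤ g.natDegree := card_roots' g
          _ ≤ (f + C (c : ℤ)).natDegree := by
              rw [hg]
              exact natDegree_map_le
          _ = f.natDegree := hdeg
    _ = f.natDegree * R.card := by
        rw [sum_const, smul_eq_mul, mul_comm]

open Classical in
/-- few constant terms `c` have few primes `p` for which `f + c` has a zero modulo `p` -/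
theorem few_bad (f : ℤ[X]) (hf : 1 ≤ f.natDegree) {w z : ℕ} (hw : 1 ≤ w)
    (hlc : ∀ p ∈ Ioc w z, p.Prime → ¬ (p : ℤ) ∣ f.leadingCoeff) {T : ℝ}
    (hT : T ≤ ∑ p ∈ (Ioc w z).filter Nat.Prime, (1 : ℝ) / p) (A : ℕ) (hA : 4 ^ z ≤ A) :
    (((Icc 1 A).filter (fun c : ℕ => ∑ p ∈ (Ioc w z).filter
      (fun p : ℕ => p.Prime ∧ ∃ r : ℕ, (p : ℤ) ∣ f.eval (r : ℤ) + c), (1 : ℝ) / p <
        T / (4 * f.natDegree))).card : ℝ) ≤ 2 * A * Real.exp (-(w * T / (4 * f.natDegree))) := by
  set d : ℝ := (f.natDegree : ℝ) with hd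
  have hd1 : (1 : ℝ) ≤ d := by
    rw [hd]
    exact_mod_cast hf
  have hw0 : (0 : ℝ) < w := by exact_mod_cast hw
  set S := (Ioc w z).filter Nat.Prime with hS
  have hSp : ∀ p ∈ S, p.Prime := fun p hp => (mem_filter.mp hp).2
  set P := ∏ p ∈ S, p with hP
  have hPpos : 0 < P := prod_pos fun p hp => (hSp p hp).pos
  have hP4 : P ≤ 4 ^ z := by
    calc P ≤ ∏ p ∈ (range (z + 1)).filter Nat.Prime, p := by
          apply prod_le_prod_of_subset_of_one_le'
          · intro p hp
            rw [hS, mem_filter, mem_Ioc] at hp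
            rw [mem_filter, mem_range]
            exact ⟨by omega, hp.2⟩
          · intro p hp _
            exact (mem_filter.mp hp).2.one_le
      _ ≤ 4 ^ z := primorial_le_four_pow z
  have hPA : P ≤ A := hP4.trans hA
  set Rt : ℕ → ℕ → Prop := fun p c => ∃ r : ℕ, (p : ℤ) ∣ f.eval (r : ℤ) + c with hRt
  have hRmod : ∀ p c : ℕ, Rt p c ↔ Rt p (c % p) := by
    intro p c
    have h1 : ((c : ℤ) - ((c % p : ℕ) : ℤ)) = p * ((c / p : ℕ) : ℤ) := by
      have := Nat.div_add_mod c p
      have h2 : ((p * (c / p) + c % p : ℕ) : ℤ) = (c : ℤ) := by rw [this]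
      push_cast at h2 ⊢
      linarith
    have h2 : (p : ℤ) ∣ (c : ℤ) - ((c % p : ℕ) : ℤ) := ⟨_, h1⟩
    constructor
    · rintro ⟨r, hr⟩
      refine ⟨r, ?_⟩
      have := dvd_sub hr h2
      rwa [show f.eval (r : ℤ) + (c : ℤ) - ((c : ℤ) - ((c % p : ℕ) : ℤ)) =
        f.eval (r : ℤ) + ((c % p : ℕ) : ℤ) by ring] at this
    · rintro ⟨r, hr⟩
      refine ⟨r, ?_⟩
      have := dvd_add hr h2
      rwa [show f.eval (r : ℤ) + ((c % p : ℕ) : ℤ) + ((c : ℤ) - ((c % p : ℕ) : ℤ)) =
        f.eval (r : ℤ) + (c : ℤ) by ring] at this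
  set g : ℕ → ℕ → ℝ := fun p c => if Rt p c then Real.exp (-(w / p)) else 1 with hg
  have hgpos : ∀ p c, 0 < g p c := by
    intro p c
    simp only [hg]
    split_ifs
    · exact Real.exp_pos _
    · exact one_pos
  -- the sum over the primes
  have hprod : ∀ c : ℕ, ∏ p ∈ S, g p (c % p) =
      Real.exp (-(w * ∑ p ∈ (Ioc w z).filter (fun p : ℕ => p.Prime ∧ Rt p c), (1 : ℝ) / p)) := by
    intro c
    have e1 : (Ioc w z).filter (fun p : ℕ => p.Prime ∧ Rt p c) = S.filter (fun p => Rt p c) := by
      rw [hS, filter_filter]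
    rw [e1, mul_sum, sum_filter, ← sum_neg_distrib, Real.exp_sum]
    refine prod_congr rfl fun p _ => ?_
    simp only [hg]
    rw [← hRmod p c]
    split_ifs
    · rw [mul_one_div]
    · rw [neg_zero, Real.exp_zero]
  set bad := (range P).filter (fun c : ℕ => ∑ p ∈ (Ioc w z).filter (fun p : ℕ => p.Prime ∧ Rt p c),
    (1 : ℝ) / p < T / (4 * d)) with hbad
  have hmean : ∑ b ∈ range P, ∏ p ∈ S, g p (b % p) ≤ P * Real.exp (-(w * T / (2 * d))) := by
    rw [hP, sum_crt S hSp g]
    have e1 : ∀ p ∈ S, ∑ a ∈ range p, g p a ≤ p * Real.exp (-(w / (2 * d) * (1 / p))) := by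
      intro p hp
      have hpp := hSp p hp
      have hpm := (mem_filter.mp hp).1
      have hp0 : (0 : ℝ) < p := by exact_mod_cast hpp.pos
      have hwp : (w : ℝ) / p ≤ 1 := by
        rw [div_le_one hp0]
        have := (mem_Ioc.mp hpm).1.le
        exact_mod_cast this
      have hu0 : 0 ≤ (w : ℝ) / p := by positivity
      have h2 := image_count f hf hpp (hlc p hpm hpp)
      have h3 : ∑ a ∈ range p, g p a = p - (((range p).filter (fun c => Rt p c)).card : ℝ) *
          (1 - Real.exp (-(w / p))) := by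
        have e2 : ∀ a, g p a = 1 - (if Rt p a then (1 - Real.exp (-(w / p))) else 0) := by
          intro a
          simp only [hg]
          split_ifs <;> ring
        simp only [e2]
        rw [sum_sub_distrib, sum_const, card_range, nsmul_eq_mul, mul_one, ← sum_filter, sum_const,
          nsmul_eq_mul]
      have h4 : (p : ℝ) ≤ d * (((range p).filter (fun c => Rt p c)).card : ℝ) := by
        rw [hd]
        exact_mod_cast h2
      -- `1 - e^{-u} ≥ u / 2`
      have h5 : (w : ℝ) / p / 2 ≤ 1 - Real.exp (-(w / p)) := by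
        set u := (w : ℝ) / p with hu
        have e3 : Real.exp (-u) ≤ 1 / (1 + u) := by
          rw [Real.exp_neg, ← one_div]
          apply one_div_le_one_div_of_le (by linarith)
          have := Real.add_one_le_exp u
          linarith
        have e4 : 1 / (1 + u) ≤ 1 - u / 2 := by
          rw [div_le_iff₀ (by linarith)]
          nlinarith
        linarith
      have h6 : 0 ≤ 1 - Real.exp (-(w / p)) := by linarith [div_nonneg hu0 zero_le_two]
      have h7 : (p : ℝ) / d ≤ (((range p).filter (fun c => Rt p c)).card : ℝ) := by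
        rw [div_le_iff₀ (by linarith)]
        linarith
      have h8 : (p : ℝ) / d * (w / p / 2) ≤ (((range p).filter (fun c => Rt p c)).card : ℝ) *
          (1 - Real.exp (-(w / p))) := mul_le_mul h7 h5 (div_nonneg hu0 zero_le_two) (Nat.cast_nonneg _)
      rw [h3]
      have h9 := Real.add_one_le_exp (-(w / (2 * d) * (1 / p)))
      have h10 : (p : ℝ) * (-(w / (2 * d) * (1 / p)) + 1) ≤ p * Real.exp (-(w / (2 * d) * (1 / p))) :=
        mul_le_mul_of_nonneg_left h9 hp0.le
      have h11 : (p : ℝ) * (-(w / (2 * d) * (1 / p)) + 1) = p - p / d * (w / p / 2) := by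
        have hd0 : d ≠ 0 := by linarith
        field_simp
        ring
      linarith
    calc ∏ p ∈ S, ∑ a ∈ range p, g p a ≤ ∏ p ∈ S, (p * Real.exp (-(w / (2 * d) * (1 / p)))) :=
          prod_le_prod (fun p _ => sum_nonneg fun a _ => (hgpos p a).le) e1
      _ = (∏ p ∈ S, (p : ℝ)) * Real.exp (∑ p ∈ S, -(w / (2 * d) * (1 / p))) := by
          rw [prod_mul_distrib, Real.exp_sum]
      _ ≤ ((∏ p ∈ S, p : ℕ) : ℝ) * Real.exp (-(w * T / (2 * d))) := by
          push_cast
          apply mul_le_mul_of_nonneg_left _ (prod_nonneg fun p _ => Nat.cast_nonneg _)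
          apply Real.exp_le_exp.mpr
          rw [sum_neg_distrib, ← mul_sum]
          have : w * T / (2 * d) ≤ w / (2 * d) * ∑ p ∈ S, (1 : ℝ) / p := by
            rw [show w * T / (2 * d) = w / (2 * d) * T by ring]
            exact mul_le_mul_of_nonneg_left hT (by positivity)
          linarith
  have hbadc : (bad.card : ℝ) ≤ P * Real.exp (-(w * T / (4 * d))) := by
    have e1 : (bad.card : ℝ) * Real.exp (-(w * (T / (4 * d)))) ≤ P * Real.exp (-(w * T / (2 * d))) := by
      refine le_trans ?_ hmean
      calc (bad.card : ℝ) * Real.exp (-(w * (T / (4 * d)))) = ∑ _b ∈ bad, Real.exp (-(w * (T / (4 * d)))) := by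
            rw [sum_const, nsmul_eq_mul]
        _ ≤ ∑ b ∈ bad, ∏ p ∈ S, g p (b % p) := by
            refine sum_le_sum fun b hb => ?_
            rw [hprod b]
            apply Real.exp_le_exp.mpr
            have h2 := (mem_filter.mp hb).2
            have h3 := mul_le_mul_of_nonneg_left h2.le hw0.le
            linarith
        _ ≤ _ := sum_le_sum_of_subset_of_nonneg (filter_subset _ _) fun b _ _ =>
            prod_nonneg fun p _ => (hgpos p _).le
    have e2 : Real.exp (-(w * (T / (4 * d)))) * Real.exp (w * (T / (4 * d))) = 1 := by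
      rw [← Real.exp_add, neg_add_cancel, Real.exp_zero]
    calc (bad.card : ℝ) = bad.card * (Real.exp (-(w * (T / (4 * d)))) * Real.exp (w * (T / (4 * d)))) := by
          rw [e2, mul_one]
      _ = (bad.card * Real.exp (-(w * (T / (4 * d))))) * Real.exp (w * (T / (4 * d))) := by ring
      _ ≤ (P * Real.exp (-(w * T / (2 * d)))) * Real.exp (w * (T / (4 * d))) :=
          mul_le_mul_of_nonneg_right e1 (Real.exp_pos _).le
      _ = P * Real.exp (-(w * T / (4 * d))) := by
          rw [mul_assoc, ← Real.exp_add]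
          congr 2
          have hd0 : d ≠ 0 := by linarith
          field_simp
          ring
  -- the constants up to `A`
  have hmod : ∀ c : ℕ, (∑ p ∈ (Ioc w z).filter (fun p : ℕ => p.Prime ∧ Rt p c), (1 : ℝ) / p) =
      ∑ p ∈ (Ioc w z).filter (fun p : ℕ => p.Prime ∧ Rt p (c % P)), (1 : ℝ) / p := by
    intro c
    apply sum_congr _ fun _ _ => rfl
    apply filter_congr
    intro p hp
    constructor
    · rintro ⟨h1, h2⟩
      refine ⟨h1, ?_⟩
      rw [hRmod p (c % P), Nat.mod_mod_of_dvd c (dvd_prod_of_mem (fun p : ℕ => p) (mem_filter.mpr ⟨hp, h1⟩)), ← hRmod]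
      exact h2
    · rintro ⟨h1, h2⟩
      refine ⟨h1, ?_⟩
      rw [hRmod p (c % P), Nat.mod_mod_of_dvd c (dvd_prod_of_mem (fun p : ℕ => p) (mem_filter.mpr ⟨hp, h1⟩)), ← hRmod] at h2
      exact h2
  have hfin : ((Icc 1 A).filter (fun c : ℕ => ∑ p ∈ (Ioc w z).filter
      (fun p : ℕ => p.Prime ∧ Rt p c), (1 : ℝ) / p < T / (4 * d))).card ≤ (A / P + 1) * bad.card := by
    calc ((Icc 1 A).filter (fun c : ℕ => ∑ p ∈ (Ioc w z).filter
          (fun p : ℕ => p.Prime ∧ Rt p c), (1 : ℝ) / p < T / (4 * d))).card ≤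
          ((range (A / P + 1)) ×ˢ bad).card := by
            apply card_le_card_of_injOn (fun c => (c / P, c % P))
            · intro c hc
              rw [mem_coe, mem_filter, mem_Icc] at hc
              rw [mem_coe, mem_product, mem_range, hbad, mem_filter, mem_range]
              refine ⟨Nat.lt_succ_of_le (Nat.div_le_div_right hc.1.2), Nat.mod_lt _ hPpos, ?_⟩
              rw [← hmod c]
              exact hc.2
            · intro c _ c' _ h
              have h1 : c / P = c' / P := (Prod.mk.inj h).1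
              have h2 : c % P = c' % P := (Prod.mk.inj h).2
              have h3 := Nat.div_add_mod c P
              have h4 := Nat.div_add_mod c' P
              rw [h1, h2] at h3
              exact h3.symm.trans h4
      _ = _ := by rw [card_product, card_range]
  have hPA' : ((A / P + 1 : ℕ) : ℝ) * P ≤ 2 * A := by
    have h1 : (A / P + 1) * P ≤ 2 * A := by
      have h2 := Nat.div_mul_le_self A P
      have : (A / P + 1) * P = A / P * P + P := by ring
      omega
    exact_mod_cast h1
  calc (((Icc 1 A).filter (fun c : ℕ => ∑ p ∈ (Ioc w z).filter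
      (fun p : ℕ => p.Prime ∧ Rt p c), (1 : ℝ) / p < T / (4 * d))).card : ℝ) ≤
      (((A / P + 1) * bad.card : ℕ) : ℝ) := by exact_mod_cast hfin
    _ = ((A / P + 1 : ℕ) : ℝ) * bad.card := by push_cast; ring
    _ ≤ ((A / P + 1 : ℕ) : ℝ) * (P * Real.exp (-(w * T / (4 * d)))) :=
        mul_le_mul_of_nonneg_left hbadc (Nat.cast_nonneg _)
    _ = (((A / P + 1 : ℕ) : ℝ) * P) * Real.exp (-(w * T / (4 * d))) := by ring
    _ ≤ _ := mul_le_mul_of_nonneg_right hPA' (Real.exp_pos _).le

end Pool.Agent.H537.GP
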