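import Pool.Agent.H537.GP.Root
import Pool.Agent.H544.LD.Fin
import Pool.Graph.R_seed8.Helper923.HMertens

/-! Sizes: the values of polynomials, the constant of Bateman and Horn, the exceptional constant terms. -/

set_option autoImplicit false
set_option maxHeartbeats 4000000

open Finset Polynomial Filter

namespace Pool.Agent.H537.GP

open Pool.Agent.H544.LD Pool.Agent.H537.FG Pool.Agent.H537.FT

theorem value_ge (f : ℤ[X]) (hd : 1 ≤ f.natDegree) (hl : 0 < f.leadingCoeff) :
    ∃ n₁ C₀ : ℕ, ∀ n : ℕ, n₁ ≤ n → (n : ℤ) ≤ f.eval (n : ℤ) + C₀ := by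
  rcases Nat.lt_or_ge f.natDegree 2 with h | h
  · have h1 : f.natDegree = 1 := by omega
    have h2 := eq_X_add_C_of_natDegree_le_one (p := f) h1.le
    have hl1 : 1 ≤ f.coeff 1 := by
      have : f.leadingCoeff = f.coeff 1 := by rw [leadingCoeff, h1]
      omega
    refine ⟨0, (f.coeff 0).natAbs, fun n _ => ?_⟩
    rw [h2, eval_add, eval_mul, eval_C, eval_X, eval_C]
    have h3 : (n : ℤ) ≤ f.coeff 1 * n := le_mul_of_one_le_left (Int.natCast_nonneg n) hl1
    simp only [coeff_add, coeff_C_mul, coeff_X_zero, mul_zero, coeff_C_zero, zero_add]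
    have h4 : -(f.coeff 0) ≤ ((f.coeff 0).natAbs : ℤ) := by omega
    linarith
  · have hdX : (X : ℤ[X]).natDegree = 1 := natDegree_X
    have hdeg : (X : ℤ[X]).degree < f.degree := by
      apply degree_lt_degree
      rw [hdX]
      omega
    have hlc : (f - X).leadingCoeff = f.leadingCoeff := leadingCoeff_sub_of_degree_lt hdeg
    obtain ⟨n₀, hn₀⟩ := pos_values (fun _ : Fin 1 => f - X) (fun _ => by
      rw [hlc]
      exact hl)
    refine ⟨n₀, 0, fun n hn => ?_⟩
    have := hn₀ n hn 0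
    rw [eval_sub, eval_X] at this
    push_cast
    linarith

theorem value_le (f : ℤ[X]) : ∃ C : ℕ, ∀ n x : ℕ, n ≤ x → 1 ≤ x →
    |f.eval (n : ℤ)| ≤ C * (x : ℤ) ^ f.natDegree := by
  refine ⟨∑ j ∈ range (f.natDegree + 1), (f.coeff j).natAbs, fun n x hn hx => ?_⟩
  rw [eval_eq_sum_range]
  refine (abs_sum_le_sum_abs _ _).trans ?_
  push_cast
  rw [sum_mul]
  refine sum_le_sum fun j hj => ?_
  rw [abs_mul, abs_of_nonneg (by positivity : (0 : ℤ) ≤ (n : ℤ) ^ j)]
  apply mul_le_mul_of_nonneg_left _ (abs_nonneg _)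
  have h1 : (n : ℤ) ^ j ≤ (x : ℤ) ^ j := pow_le_pow_left₀ (by positivity) (by exact_mod_cast hn) j
  refine h1.trans ?_
  apply pow_le_pow_right₀ (by exact_mod_cast hx)
  rw [mem_range] at hj
  omega

/-- size of the product of the values -/
theorem Hp_size {k : ℕ} (F : Fin k → ℤ[X]) :
    ∃ E : ℝ, 0 < E ∧ ∀ B : ℕ, ∀ᶠ x : ℕ in atTop, ∀ c : Fin k → ℕ, (∀ i, c i ≤ B * x ^ (F i).natDegree) →
      ∀ a : ℕ, a ≤ x → (((Hp F c).eval (a : ℤ)).natAbs : ℝ) ≤ (x : ℝ) ^ E := by
  choose C hC using fun i => value_le (F i)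
  set D : ℕ := ∑ i, (F i).natDegree with hD
  refine ⟨(D : ℝ) + 1, by positivity, fun B => ?_⟩
  filter_upwards [eventually_ge_atTop (∏ i, (B + C i)), eventually_ge_atTop 1] with x hx hx1
  intro c hc a ha
  have h1 : ((Hp F c).eval (a : ℤ)).natAbs ≤ x ^ (D + 1) := by
    rw [Hp_eval]
    have h2 : (∏ i, ((c i : ℤ) + (F i).eval (a : ℤ))).natAbs = ∏ i, ((c i : ℤ) + (F i).eval (a : ℤ)).natAbs :=
      map_prod Int.natAbsHom _ _
    rw [h2]
    calc ∏ i, ((c i : ℤ) + (F i).eval (a : ℤ)).natAbs ≤ ∏ i, ((B + C i) * x ^ (F i).natDegree) := by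
          apply prod_le_prod' fun i _ => ?_
          have h3 := hC i a x ha hx1
          have h4 : |(c i : ℤ) + (F i).eval (a : ℤ)| ≤ ((B + C i) * x ^ (F i).natDegree : ℕ) := by
            refine (abs_add_le _ _).trans ?_
            have h5 : (c i : ℤ) ≤ B * (x : ℤ) ^ (F i).natDegree := by exact_mod_cast hc i
            rw [abs_of_nonneg (Int.natCast_nonneg _)]
            push_cast
            linarith
          have h6 := Int.natCast_natAbs ((c i : ℤ) + (F i).eval (a : ℤ))
          omega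
      _ = (∏ i, (B + C i)) * x ^ D := by
          rw [prod_mul_distrib, prod_pow_eq_pow_sum]
      _ ≤ x * x ^ D := Nat.mul_le_mul_right _ hx
      _ = x ^ (D + 1) := by ring
  have h2 : (((Hp F c).eval (a : ℤ)).natAbs : ℝ) ≤ ((x ^ (D + 1) : ℕ) : ℝ) := by exact_mod_cast h1
  refine h2.trans (le_of_eq ?_)
  push_cast
  rw [← Real.rpow_natCast]
  push_cast
  rfl

/-- the sum of the reciprocals of the primes -/
theorem recip_primes : ∃ C : ℝ, 0 ≤ C ∧ ∀ z : ℕ,
    ∑ p ∈ (Icc 1 z).filter Nat.Prime, (1 : ℝ) / p ≤ C + Real.log (1 + Real.log z) := by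
  obtain ⟨C, hC, h⟩ := Pool.Agent.Helper923.HMertens.mertens_ratio
  have hl2 : (1 : ℝ) / 2 ≤ Real.log 2 := by
    have := Real.log_two_gt_d9
    linarith
  refine ⟨1 + C / Real.log 2 + Real.log 2, by positivity, fun z => ?_⟩
  have hlz : 0 ≤ Real.log (z : ℝ) := Real.log_natCast_nonneg z
  have hl1 : 0 ≤ Real.log (1 + Real.log (z : ℝ)) := Real.log_nonneg (by linarith)
  rcases Nat.lt_or_ge z 2 with hz | hz
  · have : (Icc 1 z).filter Nat.Prime = ∅ := by
      rw [filter_eq_empty_iff]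
      intro p hp hpp
      rw [mem_Icc] at hp
      have := hpp.two_le
      omega
    rw [this, sum_empty]
    positivity
  · have h1 := (abs_le.mp (h 2 z le_rfl hz)).2
    have hz1 : (1 : ℝ) < z := by
      have : 1 < z := by omega
      exact_mod_cast this
    have hlz0 : 0 < Real.log (z : ℝ) := Real.log_pos hz1
    have h2 : Real.log (Real.log z / Real.log (2 : ℕ)) ≤ Real.log 2 + Real.log (1 + Real.log z) := by
      rw [← Real.log_mul (by norm_num) (by linarith)]
      apply Real.log_le_log (by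
        push_cast
        positivity)
      push_cast
      rw [div_le_iff₀ (by linarith)]
      nlinarith
    have h3 : (Icc 1 z).filter Nat.Prime ⊆ insert 2 ((Ioc 2 z).filter Nat.Prime) := by
      intro p hp
      rw [mem_filter, mem_Icc] at hp
      rw [mem_insert, mem_filter, mem_Ioc]
      have := hp.2.two_le
      by_cases hp2 : p = 2
      · exact Or.inl hp2
      · exact Or.inr ⟨⟨by omega, hp.1.2⟩, hp.2⟩
    have h4 : ∑ p ∈ (Icc 1 z).filter Nat.Prime, (1 : ℝ) / p ≤
        ∑ p ∈ insert 2 ((Ioc 2 z).filter Nat.Prime), (1 : ℝ) / p :=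
      sum_le_sum_of_subset_of_nonneg h3 fun _ _ _ => by positivity
    rw [sum_insert (by simp)] at h4
    push_cast at h1 h2 h4
    linarith

/-- a lower bound for the constant of Bateman and Horn -/
theorem Cz_ge (k D : ℕ) : ∃ c₂ : ℝ, 0 < c₂ ∧ ∀ (F : Fin k → ℤ[X]) (c : Fin k → ℕ),
    (∑ i, (F i).natDegree ≤ D) → (∀ p : ℕ, p.Prime → om (Hp F c) p < p) → ∀ z : ℕ,
    c₂ / (1 + Real.log z) ^ (2 * D) ≤ Cz F c z := by
  obtain ⟨C, hC, h⟩ := recip_primes
  refine ⟨(1 / (2 * (D : ℝ) + 1)) ^ (2 * D) * Real.exp (-(2 * D * C)), by positivity, ?_⟩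
  intro F c hD hadm z
  have hom : ∀ p : ℕ, p.Prime → (om (Hp F c) p : ℝ) ≤ D := by
    intro p hp
    have h1 := omG_le hp (hadm p hp)
    have h2 := (h1.trans (Hp_deg F c)).trans hD
    exact_mod_cast h2
  have hlz : 0 ≤ Real.log (z : ℝ) := Real.log_natCast_nonneg z
  have hfac : ∀ p ∈ Pool.Agent.H373R2.T7.pz z, (if p ≤ 2 * D then 1 / (2 * (D : ℝ) + 1) else 1) *
      Real.exp (-(2 * D * (1 / (p : ℝ)))) ≤
      (1 - (om (Hp F c) p : ℝ) / p) / (1 - 1 / (p : ℝ)) ^ k := by
    intro p hp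
    have hpp : p.Prime := (mem_filter.mp hp).2
    have hp0 : (0 : ℝ) < p := by exact_mod_cast hpp.pos
    have hp1 : (1 : ℝ) < p := by exact_mod_cast hpp.one_lt
    have ho := hom p hpp
    have ho1 : (om (Hp F c) p : ℝ) + 1 ≤ p := by exact_mod_cast hadm p hpp
    have ho0 : (0 : ℝ) ≤ om (Hp F c) p := Nat.cast_nonneg _
    have hD0 : (0 : ℝ) ≤ D := Nat.cast_nonneg _
    have hnn : 0 ≤ 1 - (om (Hp F c) p : ℝ) / p := by
      have : (om (Hp F c) p : ℝ) / p ≤ 1 := by
        rw [div_le_one hp0]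
        linarith
      linarith
    have hden0 : 0 < (1 - 1 / (p : ℝ)) ^ k := by
      apply pow_pos
      have : 1 / (p : ℝ) < 1 := by
        rw [div_lt_one hp0]
        exact hp1
      linarith
    have hden1 : (1 - 1 / (p : ℝ)) ^ k ≤ 1 := by
      apply pow_le_one₀
      · have : 1 / (p : ℝ) < 1 := by
          rw [div_lt_one hp0]
          exact hp1
        linarith
      · have : 0 ≤ 1 / (p : ℝ) := by positivity
        linarith
    have hstep : 1 - (om (Hp F c) p : ℝ) / p ≤ (1 - (om (Hp F c) p : ℝ) / p) / (1 - 1 / (p : ℝ)) ^ k := by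
      rw [le_div_iff₀ hden0]
      exact mul_le_of_le_one_right hnn hden1
    refine le_trans ?_ hstep
    have hexp1 : Real.exp (-(2 * D * (1 / (p : ℝ)))) ≤ 1 := by
      rw [Real.exp_le_one_iff]
      have : 0 ≤ 2 * (D : ℝ) * (1 / (p : ℝ)) := by positivity
      linarith
    split_ifs with hc
    · have hc' : (p : ℝ) ≤ 2 * D := by exact_mod_cast hc
      have h1 : 1 / (2 * (D : ℝ) + 1) ≤ 1 - (om (Hp F c) p : ℝ) / p := by
        have h2 : 1 / (2 * (D : ℝ) + 1) ≤ 1 / p := one_div_le_one_div_of_le hp0 (by linarith)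
        have h3 : 1 / (p : ℝ) ≤ 1 - (om (Hp F c) p : ℝ) / p := by
          rw [div_le_iff₀ hp0, sub_mul, div_mul_cancel₀ _ hp0.ne']
          linarith
        linarith
      calc 1 / (2 * (D : ℝ) + 1) * Real.exp (-(2 * D * (1 / (p : ℝ)))) ≤ 1 / (2 * (D : ℝ) + 1) * 1 :=
            mul_le_mul_of_nonneg_left hexp1 (by positivity)
        _ ≤ _ := by linarith
    · push Not at hc
      have hc' : 2 * (D : ℝ) < p := by exact_mod_cast hc
      rw [one_mul]
      have h1 : (om (Hp F c) p : ℝ) / p ≤ D / p := div_le_div_of_nonneg_right ho hp0.le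
      set u : ℝ := D / p with hu
      have hu0 : 0 ≤ u := by positivity
      have hu1 : u ≤ 1 / 2 := by
        rw [hu, div_le_div_iff₀ hp0 (by norm_num)]
        linarith
      have h2 : Real.exp (-(2 * u)) ≤ 1 - u := by
        have h3 : Real.exp (-(2 * u)) ≤ 1 / (1 + 2 * u) := by
          rw [Real.exp_neg, ← one_div]
          apply one_div_le_one_div_of_le (by linarith)
          have := Real.add_one_le_exp (2 * u)
          linarith
        have h4 : 1 / (1 + 2 * u) ≤ 1 - u := by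
          rw [div_le_iff₀ (by linarith)]
          nlinarith
        linarith
      have h3 : 2 * (D : ℝ) * (1 / (p : ℝ)) = 2 * u := by
        rw [hu]
        ring
      rw [h3]
      linarith
  have hprod := prod_le_prod (s := Pool.Agent.H373R2.T7.pz z) (fun p _ => by positivity) hfac
  rw [prod_mul_distrib, ← Real.exp_sum] at hprod
  refine le_trans ?_ hprod
  have h1 : (1 / (2 * (D : ℝ) + 1)) ^ (2 * D) ≤
      ∏ p ∈ Pool.Agent.H373R2.T7.pz z, (if p ≤ 2 * D then 1 / (2 * (D : ℝ) + 1) else 1) := by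
    rw [prod_ite, prod_const, prod_const_one, mul_one]
    apply pow_le_pow_of_le_one (by positivity)
    · rw [div_le_one (by positivity)]
      have : (0 : ℝ) ≤ D := Nat.cast_nonneg _
      linarith
    · calc ((Pool.Agent.H373R2.T7.pz z).filter (fun p => p ≤ 2 * D)).card ≤ (Icc 1 (2 * D)).card := by
            apply card_le_card
            intro p hp
            rw [mem_filter] at hp
            rw [mem_Icc]
            exact ⟨(mem_filter.mp hp.1).2.one_le, hp.2⟩
        _ = 2 * D := by simp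
  have h2 : ∑ p ∈ Pool.Agent.H373R2.T7.pz z, -(2 * (D : ℝ) * (1 / (p : ℝ))) =
      -(2 * D * ∑ p ∈ (Icc 1 z).filter Nat.Prime, (1 : ℝ) / p) := by
    rw [sum_neg_distrib, mul_sum]
    rfl
  have h3 : Real.exp (-(2 * D * C)) / (1 + Real.log z) ^ (2 * D) ≤
      Real.exp (∑ p ∈ Pool.Agent.H373R2.T7.pz z, -(2 * (D : ℝ) * (1 / (p : ℝ)))) := by
    rw [h2]
    have h4 : (1 + Real.log z) ^ (2 * D) = Real.exp (2 * D * Real.log (1 + Real.log z)) := by
      rw [← Real.rpow_natCast, Real.rpow_def_of_pos (by linarith)]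
      congr 1
      push_cast
      ring
    rw [h4, ← Real.exp_sub]
    apply Real.exp_le_exp.mpr
    have h5 := mul_le_mul_of_nonneg_left (h z) (by positivity : (0 : ℝ) ≤ 2 * D)
    linarith
  calc (1 / (2 * (D : ℝ) + 1)) ^ (2 * D) * Real.exp (-(2 * D * C)) / (1 + Real.log z) ^ (2 * D) =
      (1 / (2 * (D : ℝ) + 1)) ^ (2 * D) * (Real.exp (-(2 * D * C)) / (1 + Real.log z) ^ (2 * D)) := by ring
    _ ≤ _ := mul_le_mul h1 h3 (by positivity) (prod_nonneg fun p _ => by split_ifs <;> positivity)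

open Classical in
/-- few constant terms have few primes with a zero -/
theorem root_ev (f : ℤ[X]) (hd : 1 ≤ f.natDegree) (hl : 0 < f.leadingCoeff) (B : ℝ) (hB : 0 < B) (K : ℕ)
    (hK : 2 ≤ K) (hBK : B < K) :
    ∃ c₁ : ℝ, 0 < c₁ ∧ ∀ (B₁ : ℕ) (U : ℝ), ∀ᶠ x : ℕ in atTop, ∀ A : ℕ, x ^ f.natDegree ≤ B₁ * A →
      (((Icc 1 A).filter (fun c : ℕ => ∑ p ∈ (Ioc (wF B K (Real.log x)) (zF B K (Real.log x))).filter
        (fun p : ℕ => p.Prime ∧ ∃ r : ℕ, (p : ℤ) ∣ f.eval (r : ℤ) + c), (1 : ℝ) / p < c₁)).card : ℝ) ≤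
        A / Real.log x ^ U := by
  obtain ⟨Cm, hCm, hmert⟩ := Pool.Agent.Helper923.HMertens.mertens_ratio
  have hK0 : (0 : ℝ) < K := by
    have : 0 < K := by omega
    exact_mod_cast this
  have hK1 : (1 : ℝ) ≤ K := by
    have : 1 ≤ K := by omega
    exact_mod_cast this
  set d : ℝ := (f.natDegree : ℝ) with hdd
  have hd1 : (1 : ℝ) ≤ d := by
    rw [hdd]
    exact_mod_cast hd
  set T : ℝ := 1 / (8 * K) with hT
  have hT0 : 0 < T := by positivity
  refine ⟨T / (4 * d), by positivity, fun B₁ U => ?_⟩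
  have hlogX : Tendsto (fun X : ℕ => Real.log (X : ℝ)) atTop atTop :=
    Real.tendsto_log_atTop.comp tendsto_natCast_atTop_atTop
  set b : ℝ := B / (K + 1) with hb
  have hb0 : 0 < b := by positivity
  set κ : ℝ := T / (4 * d) with hκ
  have hκ0 : 0 < κ := by positivity
  -- the exponential beats the power
  have t1 : ∀ᶠ L : ℝ in atTop, U * Real.log L + 1 ≤ κ * (L ^ b - 1) := by
    have h1 := (isLittleO_log_rpow_atTop hb0).bound (c := κ / (2 * (|U| + 1))) (by positivity)
    have h2 := (tendsto_rpow_atTop hb0).eventually_ge_atTop (2 * (1 + κ) / κ)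
    filter_upwards [h1, h2, eventually_ge_atTop (1 : ℝ)] with L h3 h4 h5
    have hLb : 0 ≤ L ^ b := Real.rpow_nonneg (by linarith) _
    have hl0 := Real.log_nonneg h5
    rw [Real.norm_of_nonneg hl0, Real.norm_of_nonneg hLb] at h3
    have h6 : U * Real.log L ≤ κ / 2 * L ^ b := by
      calc U * Real.log L ≤ (|U| + 1) * Real.log L := by
            apply mul_le_mul_of_nonneg_right _ hl0
            have := le_abs_self U
            linarith
        _ ≤ (|U| + 1) * (κ / (2 * (|U| + 1)) * L ^ b) := mul_le_mul_of_nonneg_left h3 (by positivity)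
        _ = κ / 2 * L ^ b := by field_simp
    rw [div_le_iff₀ hκ0] at h4
    nlinarith
  have hL1 := hlogX.eventually (parL B hB K hK 1 1 (8 * K * |Cm| + f.leadingCoeff.natAbs + 2)
    one_pos one_pos)
  have hX1 := parX2 B hB K hK hBK (1 / 2) 1 1 1 1 1 (by norm_num) one_pos one_pos one_pos one_pos one_pos 1
  filter_upwards [hL1, hX1, hlogX.eventually t1, hlogX.eventually_ge_atTop 1,
    eventually_ge_atTop (B₁ ^ 2), eventually_ge_atTop 3] with x g h2 h3 hL1' hxB hx3
  intro A hA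
  set L := Real.log (x : ℝ) with hL
  set w := wF B K L with hwd
  set z := zF B K L with hz
  obtain ⟨g1, g2, g3, g4, g5, g6, g7⟩ := g
  have hk2 := h2.2.1
  have hx0 : (0 : ℝ) < x := by
    have : 0 < x := by omega
    exact_mod_cast this
  have hL0 : 0 < L := by linarith
  have habs := abs_nonneg Cm
  have hp6 : 0 ≤ 8 * K * |Cm| := by positivity
  have hp7 : (0 : ℝ) ≤ f.leadingCoeff.natAbs := Nat.cast_nonneg _
  have hw2 : (2 : ℝ) ≤ w := by linarith
  have hw2' : 2 ≤ w := by exact_mod_cast hw2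
  have hwlc : f.leadingCoeff.natAbs < w := by
    have : (f.leadingCoeff.natAbs : ℝ) < w := by linarith
    exact_mod_cast this
  have hlw0 : 0 < Real.log w := by linarith
  have hlz : Real.log w ≤ Real.log z := by
    have : 0 ≤ 1 / (2 * (K : ℝ)) * Real.log w := by positivity
    linarith
  have hlz0 : 0 < Real.log z := by linarith
  have hz0 : (0 : ℝ) < z := by
    by_contra hc
    have h0 : (z : ℝ) = 0 := le_antisymm (not_lt.mp hc) (Nat.cast_nonneg _)
    rw [h0, Real.log_zero] at hlz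
    linarith
  have hwz : w ≤ z := by
    have : (w : ℝ) ≤ z := (Real.log_le_log_iff (by linarith) hz0).mp hlz
    exact_mod_cast this
  have hTs : T ≤ ∑ p ∈ (Ioc w z).filter Nat.Prime, (1 : ℝ) / p := by
    have e1 := (abs_le.mp (hmert w z hw2' hwz)).1
    have e2 : 1 / (4 * (K : ℝ)) ≤ Real.log (Real.log z / Real.log w) := by
      have e3 : 1 + 1 / (2 * (K : ℝ)) ≤ Real.log z / Real.log w := by
        rw [le_div_iff₀ hlw0]
        exact g3
      have e4 := Real.one_sub_inv_le_log_of_pos (x := 1 + 1 / (2 * (K : ℝ))) (by positivity)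
      have e5 := Real.log_le_log (by positivity) e3
      have e6 : 1 / (4 * (K : ℝ)) ≤ 1 - (1 + 1 / (2 * (K : ℝ)))⁻¹ := by
        have : 1 - (1 + 1 / (2 * (K : ℝ)))⁻¹ = 1 / (2 * K + 1) := by
          field_simp
          ring
        rw [this]
        apply one_div_le_one_div_of_le (by positivity)
        linarith
      linarith
    have e3 : Cm / Real.log w ≤ 1 / (8 * K) := by
      have h3 : Cm ≤ |Cm| := le_abs_self _
      rw [div_le_div_iff₀ hlw0 (by positivity)]
      have h4 : 8 * K * |Cm| ≤ Real.log w := by linarith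
      calc Cm * (8 * K) ≤ |Cm| * (8 * K) := mul_le_mul_of_nonneg_right h3 (by positivity)
        _ = 8 * K * |Cm| := by ring
        _ ≤ 1 * Real.log w := by linarith
    have e5 : 1 / (4 * (K : ℝ)) = 1 / (8 * K) + 1 / (8 * K) := by
      field_simp
      norm_num
    linarith
  -- `4 ^ z ≤ A`
  have h4A : 4 ^ z ≤ A := by
    have e1 : (4 : ℝ) ^ z ≤ (x : ℝ) ^ ((1 : ℝ) / 2) := by
      refine le_trans ?_ hk2
      have : (1 : ℝ) ≤ (SF B L : ℝ) + 1 := by
        have : (0 : ℝ) ≤ SF B L := Nat.cast_nonneg _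
        linarith
      exact le_mul_of_one_le_left (by positivity) this
    have e2 : (B₁ : ℝ) ≤ (x : ℝ) ^ ((1 : ℝ) / 2) := by
      rw [← Real.sqrt_eq_rpow]
      apply Real.le_sqrt_of_sq_le
      exact_mod_cast hxB
    have e3 : (B₁ : ℝ) * 4 ^ z ≤ x := by
      calc (B₁ : ℝ) * 4 ^ z ≤ (x : ℝ) ^ ((1 : ℝ) / 2) * (x : ℝ) ^ ((1 : ℝ) / 2) :=
            mul_le_mul e2 e1 (by positivity) (by positivity)
        _ = x := by
            rw [← Real.rpow_add hx0]
            norm_num
    have e4 : (x : ℝ) ≤ (x : ℝ) ^ f.natDegree := by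
      have hx1 : (1 : ℝ) ≤ x := by
        have : 1 ≤ x := by omega
        exact_mod_cast this
      calc (x : ℝ) = (x : ℝ) ^ 1 := (pow_one _).symm
        _ ≤ _ := pow_le_pow_right₀ hx1 hd
    have e5 : ((x ^ f.natDegree : ℕ) : ℝ) ≤ B₁ * A := by exact_mod_cast hA
    push_cast at e5
    have hB0 : (0 : ℝ) < B₁ := by
      by_contra hc
      have h0 : (B₁ : ℝ) = 0 := le_antisymm (not_lt.mp hc) (Nat.cast_nonneg _)
      rw [h0, zero_mul] at e5
      linarith
    have e6 : (B₁ : ℝ) * 4 ^ z ≤ B₁ * A := by linarith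
    have e7 := le_of_mul_le_mul_left e6 hB0
    exact_mod_cast e7
  have hlc : ∀ p ∈ Ioc w z, p.Prime → ¬ (p : ℤ) ∣ f.leadingCoeff := by
    intro p hp _ hd
    rw [mem_Ioc] at hp
    have h5 := Nat.le_of_dvd (by omega) (Int.natCast_dvd.mp hd)
    omega
  have hmain := few_bad f hd (by omega : 1 ≤ w) hlc hTs A h4A
  rw [← hdd] at hmain
  refine hmain.trans ?_
  -- the exponential
  have hwL : L ^ b - 1 ≤ w := by
    have e1 : L ^ b < (w : ℝ) + 1 := by
      have e2 : L ^ b = (L ^ B) ^ (1 / ((K : ℝ) + 1)) := by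
        rw [← Real.rpow_mul hL0.le, hb]
        congr 1
        ring
      have e3 : (w : ℝ) + 1 = (((w : ℝ) + 1) ^ (K + 1)) ^ (1 / ((K : ℝ) + 1)) := by
        rw [← Real.rpow_natCast, ← Real.rpow_mul (by positivity)]
        push_cast
        rw [mul_one_div_cancel (by positivity), Real.rpow_one]
      rw [e2, e3]
      apply Real.rpow_lt_rpow (by positivity) (by linarith) (by positivity)
    linarith
  have e1 : U * Real.log L + 1 ≤ w * T / (4 * d) := by
    refine h3.trans ?_
    calc κ * (L ^ b - 1) ≤ κ * w := mul_le_mul_of_nonneg_left hwL hκ0.le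
      _ = w * T / (4 * d) := by rw [hκ]; ring
  have hLU : 0 < L ^ U := Real.rpow_pos_of_pos hL0 _
  rw [le_div_iff₀ hLU]
  have e2 : 2 * Real.exp (-(w * T / (4 * d))) * L ^ U ≤ 1 := by
    have e3 : L ^ U = Real.exp (U * Real.log L) := by
      rw [Real.rpow_def_of_pos hL0]
      congr 1
      ring
    rw [e3, mul_assoc, ← Real.exp_add]
    have e4 : Real.exp (-(w * T / (4 * d)) + U * Real.log L) ≤ Real.exp (-1) :=
      Real.exp_le_exp.mpr (by linarith)
    have e5 : Real.exp (-1) ≤ 1 / 2 := by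
      rw [Real.exp_neg, ← one_div]
      apply one_div_le_one_div_of_le (by norm_num)
      have := Real.add_one_le_exp (1 : ℝ)
      linarith
    linarith
  calc 2 * (A : ℝ) * Real.exp (-(w * T / (4 * d))) * L ^ U =
      A * (2 * Real.exp (-(w * T / (4 * d))) * L ^ U) := by ring
    _ ≤ A * 1 := mul_le_mul_of_nonneg_left e2 (Nat.cast_nonneg _)
    _ = A := mul_one _

end Pool.Agent.H537.GP
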